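import Mathlib

/-!
# Steinitz constant of Euclidean space: sigma(l_2^m) <= C sqrt (m (1 + log m))
Blueprint (helper380).  Every `S_X` below is one task: prove `theorem X : S_X`.
-/

set_option autoImplicit false

namespace Pool.Agent.H380R3.SZ

open Finset

noncomputable section

/-! ## Part A : rounding -/

open Classical in
/-- the fractional coordinates of `x` on `V` -/
def frac {ι : Type} (V : Finset ι) (x : ι → ℝ) : Finset ι :=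
  V.filter (fun i => 0 < x i ∧ x i < 1)

/-- all values of `x` on `V` are in `[0,1]` -/
def In01 {ι : Type} (V : Finset ι) (x : ι → ℝ) : Prop := ∀ i ∈ V, 0 ≤ x i ∧ x i ≤ 1

/-- (A1) move along `z` (supported on the fractional coordinates) until one more coordinate
becomes integral. -/
def S_move : Prop := ∀ (ι : Type) (V : Finset ι) (x z : ι → ℝ), In01 V x →
  (∀ i, i ∉ frac V x → z i = 0) → (∃ i, z i ≠ 0) →
  ∃ c : ℝ, 0 < c ∧ In01 V (fun i => x i + c * z i) ∧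
    (frac V (fun i => x i + c * z i)).card < (frac V x).card

/-- (A2) vertex reduction -/
def S_vertex : Prop := ∀ (ι Q : Type) [Fintype Q] (V : Finset ι) (x : ι → ℝ) (f : Q → ι → ℝ),
  In01 V x → ∃ x' : ι → ℝ, In01 V x' ∧
    (∀ q, ∑ i ∈ V, x' i * f q i = ∑ i ∈ V, x i * f q i) ∧
    (frac V x').card ≤ Fintype.card Q

/-- (A3) a good direction (trace argument) -/
def S_dir : Prop := ∀ (ι κ Q : Type) [Fintype κ] [Fintype Q] (F : Finset ι) (v : ι → κ → ℝ)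
  (f : Q → ι → ℝ), (∀ i ∈ F, ∑ j, (v i j) ^ 2 ≤ 2) → F.Nonempty →
  2 * Fintype.card Q ≤ F.card →
  ∃ z : ι → ℝ, (∀ i, i ∉ F → z i = 0) ∧ (∃ i, z i ≠ 0) ∧ (∀ q, ∑ i ∈ F, z i * f q i = 0) ∧
    ∑ j, (∑ i ∈ F, z i * v i j) ^ 2 ≤ 4 * ∑ i ∈ F, (z i) ^ 2

/-- (A4) one step of a stage -/
def S_step : Prop := ∀ (ι κ : Type) [Fintype κ] (V : Finset ι) (Pr : Finset κ) (v : ι → κ → ℝ)
  (φ x : ι → ℝ) (err : κ → ℝ), (∀ i ∈ V, ∑ j, (v i j) ^ 2 ≤ 2) → In01 V x →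
  2 * (Pr.card + 2) ≤ (frac V x).card →
  ∃ x' : ι → ℝ, In01 V x' ∧ (∀ i, i ∉ frac V x → x' i = x i) ∧
    (frac V x').card < (frac V x).card ∧
    (∀ j ∈ Pr, ∑ i ∈ V, (x' i - x i) * v i j = 0) ∧
    ∑ i ∈ V, (x' i - x i) * φ i = 0 ∧
    ∑ j, (err j + ∑ i ∈ V, (x' i - x i) * v i j) ^ 2 - ∑ j, (err j) ^ 2
      ≤ 4 * (∑ i ∈ V, (x' i - 1 / 2) ^ 2 - ∑ i ∈ V, (x i - 1 / 2) ^ 2)

/-- (A5) a stage: iterate (A4) until at most `h` fractional coordinates are left -/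
def S_stage : Prop := ∀ (ι κ : Type) [Fintype κ] (V : Finset ι) (Pr : Finset κ) (v : ι → κ → ℝ)
  (φ x : ι → ℝ) (h : ℕ), (∀ i ∈ V, ∑ j, (v i j) ^ 2 ≤ 2) → In01 V x →
  2 * (Pr.card + 2) ≤ h + 1 →
  ∃ x' : ι → ℝ, In01 V x' ∧ (∀ i, i ∉ frac V x → x' i = x i) ∧
    (frac V x').card ≤ h ∧
    (∀ j ∈ Pr, ∑ i ∈ V, (x' i - x i) * v i j = 0) ∧
    ∑ i ∈ V, (x' i - x i) * φ i = 0 ∧
    ∑ j, (∑ i ∈ V, (x' i - x i) * v i j) ^ 2 ≤ ((frac V x).card : ℝ)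

/-- (A6) flagged rounding: the error on the first `k` positions is `O(√k)`, for all `k`. -/
def S_round : Prop := ∀ (ι κ : Type) [Fintype κ] (pos : κ → ℕ) (V : Finset ι) (v : ι → κ → ℝ)
  (φ x : ι → ℝ), (∀ k : ℕ, (univ.filter (fun j => pos j < k)).card ≤ 2 * k) →
  (∀ i ∈ V, ∑ j, (v i j) ^ 2 ≤ 2) → In01 V x →
  ∃ W : Finset ι, W ⊆ V ∧ (∀ i ∈ V, x i = 1 → i ∈ W) ∧ (∀ i ∈ W, x i ≠ 0) ∧
    (∀ k : ℕ, ∑ j ∈ univ.filter (fun j => pos j < k),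
      (∑ i ∈ W, v i j - ∑ i ∈ V, x i * v i j) ^ 2 ≤ 256 * (k : ℝ)) ∧
    ∑ i ∈ W, φ i ≤ ∑ i ∈ V, x i * φ i

/-- number of functionals that are controlled by the vertex reduction -/
def N1 (m : ℕ) : ℝ := (m : ℝ) ^ 2 + 2 * m

/-- (A7) the rounding lemma used for one split -/
def S_rnd2 : Prop := ∀ (ι : Type) (m i0 : ℕ) (V : Finset ι) (v : ι → Fin m → ℝ)
  (d : Fin m → ι → ℝ) (w : Fin m → ℝ) (x : ι → ℝ),
  (∀ i ∈ V, ∑ l, (v i l) ^ 2 ≤ 1) → (∀ j, ∀ i ∈ V, |d j i| ≤ 1) → In01 V x →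
  ∃ W : Finset ι, W ⊆ V ∧
    (∀ k : ℕ, ∑ l ∈ univ.filter (fun l : Fin m => i0 ≤ l.val ∧ l.val < k),
      ((∑ i ∈ W, v i l - ∑ i ∈ V, x i * v i l) ^ 2 +
       (∑ i ∈ W, |v i l| - ∑ i ∈ V, x i * |v i l|) ^ 2) ≤ 256 * ((k - i0 : ℕ) : ℝ)) ∧
    ∑ l, w l * (∑ i ∈ W, v i l - ∑ i ∈ V, x i * v i l) ≤ 0 ∧
    (∀ l, |(∑ i ∈ W, |v i l|) - ∑ i ∈ V, x i * (|v i l|)| ≤ N1 m) ∧
    (∀ l j, |(∑ i ∈ W, d j i * v i l) - ∑ i ∈ V, x i * (d j i * v i l)| ≤ N1 m)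

/-! ## Part B : the good basis -/

/-- (B1) Auerbach: a family of `m` points of the zonotope `{∑ δ_i v_i : |δ_i| ≤ 1}` such that
every point of the zonotope is a combination of them with coefficients in `[-1,1]`. -/
def S_auer : Prop := ∀ (m : ℕ) (ι : Type) [Fintype ι] (v : ι → Fin m → ℝ),
  (∀ w : Fin m → ℝ, (∀ i, ∑ l, w l * v i l = 0) → w = 0) →
  ∃ D : Fin m → ι → ℝ, (∀ p i, |D p i| ≤ 1) ∧
    (∀ w : Fin m → ℝ, (∀ p, ∑ l, w l * (∑ i, D p i * v i l) = 0) → w = 0) ∧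
    ∀ δ : ι → ℝ, (∀ i, |δ i| ≤ 1) → ∃ a : Fin m → ℝ, (∀ p, |a p| ≤ 1) ∧
      ∀ l, ∑ i, δ i * v i l = ∑ p, a p * ∑ i, D p i * v i l

/-- (B2) spectral theorem for `∑_p z_p z_p^T` : an orthogonal matrix `u` (rows = eigenvectors)
and the eigenvalues, sorted. -/
def S_spec : Prop := ∀ (m : ℕ) (z : Fin m → Fin m → ℝ),
  (∀ w : Fin m → ℝ, (∀ p, ∑ l, w l * z p l = 0) → w = 0) →
  ∃ (u : Fin m → Fin m → ℝ) (s : Fin m → ℝ),
    (∀ j k, ∑ l, u j l * u k l = if j = k then 1 else 0) ∧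
    (∀ l l', ∑ j, u j l * u j l' = if l = l' then 1 else 0) ∧
    (∀ j, 0 < s j) ∧ Monotone s ∧
    (∀ j k, ∑ p, (∑ l, z p l * u j l) * (∑ l, z p l * u k l) = if j = k then (s j) ^ 2 else 0)

/-! ## Part C : the system in normal form, parameters -/

/-- a system in normal form -/
structure Sys (m n : ℕ) where
  v : Fin n → Fin m → ℝ
  d : Fin m → Fin n → ℝ
  t : Fin m → ℝ
  hv : ∀ i, ∑ l, (v i l) ^ 2 ≤ 1
  hd : ∀ j i, |d j i| ≤ 1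
  ht : ∀ j, 0 < t j
  hmono : Monotone t
  hsum : ∀ l, ∑ i, v i l = 0
  hN : ∀ l j, ∑ i, d j i * v i l = if l = j then t j else 0
  hT : ∀ l, ∑ i, |v i l| ≤ m * t l

/-- (B3) normal form of a spanning family -/
def S_normal : Prop := ∀ (m n : ℕ), 1 ≤ m → ∀ v : Fin n → Fin m → ℝ,
  (∀ i, ∑ l, (v i l) ^ 2 ≤ 1) → (∀ l, ∑ i, v i l = 0) →
  (∀ w : Fin m → ℝ, (∀ i, ∑ l, w l * v i l = 0) → w = 0) →
  ∃ (S : Sys m n) (u : Fin m → Fin m → ℝ),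
    (∀ j k, ∑ l, u j l * u k l = if j = k then 1 else 0) ∧
    (∀ l l', ∑ j, u j l * u j l' = if l = l' then 1 else 0) ∧
    (∀ i j, S.v i j = ∑ l, v i l * u j l)

/-- activity threshold -/
def Lam (m : ℕ) : ℝ := 2 ^ 15 * (m : ℝ) ^ 5
/-- bound for the active coordinates of end points -/
def b0 (m : ℕ) : ℝ := 16 * Real.sqrt m
/-- number of levels between becoming inactive and being frozen -/
def LL (m : ℕ) : ℕ := 34 + 12 * Nat.clog 2 m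
/-- bound for `T` of a coordinate that has just become inactive -/
def DD (m : ℕ) : ℝ := 2 * (m * Lam m + 2 * N1 m)
/-- bound for the off-diagonal entries of `N` in inactive rows -/
def Ds (m : ℕ) : ℝ := 265 * (m : ℝ) ^ 3

section defs
variable {m n : ℕ} (S : Sys m n)

/-- the level at which coordinate `l` becomes inactive: `l` is active at level `k` iff `k < a l` -/
def Sys.a (l : Fin m) : ℕ := sInf {k : ℕ | S.t l < 2 ^ k * Lam m}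
/-- number of inactive coordinates at level `k` -/
def Sys.J (k : ℕ) : ℕ := (univ.filter (fun l : Fin m => S.a l ≤ k)).card
/-- number of frozen coordinates at level `k` -/
def Sys.i0 (k : ℕ) : ℕ := (univ.filter (fun l : Fin m => S.a l + LL m ≤ k)).card
/-- total size of the windows up to level `k` -/
def Sys.X (k : ℕ) : ℕ := ∑ r ∈ range k, (S.J r - S.i0 r)
/-- bound for the steering at level `k` -/
def Sys.th (k : ℕ) : ℝ :=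
  2 * b0 m * ∑ l ∈ univ.filter (fun l : Fin m => k < S.a l), 2 ^ k / S.t l
/-- total steering up to level `k` -/
def Sys.Th (k : ℕ) : ℝ := ∑ r ∈ range k, S.th r
/-- `T_V(l)` -/
def Sys.TT (V : Finset (Fin n)) (l : Fin m) : ℝ := ∑ i ∈ V, |S.v i l|
/-- `N_V[l,j]` -/
def Sys.NN (V : Finset (Fin n)) (l j : Fin m) : ℝ := ∑ i ∈ V, S.d j i * S.v i l
end defs

/-- (C1) basic facts on `a`, `J`, `i0` -/
def S_idx : Prop := ∀ (m n : ℕ) (S : Sys m n), 1 ≤ m →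
  (∀ (k : ℕ) (l : Fin m), k < S.a l ↔ 2 ^ k * Lam m ≤ S.t l) ∧
  (∀ l l' : Fin m, l ≤ l' → S.a l ≤ S.a l') ∧
  (∀ (k : ℕ) (l : Fin m), l.val < S.J k ↔ S.a l ≤ k) ∧
  (∀ (k : ℕ) (l : Fin m), l.val < S.i0 k ↔ S.a l + LL m ≤ k) ∧
  (∀ k, S.i0 k ≤ S.J k ∧ S.J k ≤ m ∧ S.J k ≤ S.J (k + 1) ∧ S.X k ≤ S.X (k + 1))

/-- (C2) the windows are small in total -/
def S_win : Prop := ∀ (m n : ℕ) (S : Sys m n) (k : ℕ), S.X k ≤ LL m * m

/-- (C3) the steering is small in total -/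
def S_th : Prop := ∀ (m n : ℕ) (S : Sys m n) (k : ℕ), 1 ≤ m →
  0 ≤ S.th k ∧ 0 ≤ S.Th k ∧ S.Th (k + 1) = S.Th k + S.th k ∧
  S.Th k ≤ 1 / (512 * (m : ℝ) ^ 3) ∧ S.th k ≤ 1 / (512 * (m : ℝ) ^ 3)

/-- (C4) numerical facts -/
def S_num : Prop := ∀ m : ℕ, 1 ≤ m →
  N1 m ≤ 3 * (m : ℝ) ^ 2 ∧ 1 ≤ N1 m ∧ b0 m ≤ 16 * m ∧ 0 < b0 m ∧ (b0 m) ^ 2 = 256 * m ∧
  0 < Lam m ∧ 0 < DD m ∧ (DD m) ^ 2 ≤ 2 ^ (LL m) ∧
  4 * (m : ℝ) * (1 / (512 * (m : ℝ) ^ 3)) * Lam m + 3 * N1 m ≤ Ds m ∧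
  (1 / (512 * (m : ℝ) ^ 3)) * Ds m ≤ 1 ∧
  (∀ w : ℝ, Lam m ≤ w → 4 * (m : ℝ) * (1 / (512 * (m : ℝ) ^ 3)) * w + 3 * N1 m ≤ w / (2 * m)) ∧
  (LL m : ℝ) ≤ 46 + 18 * Real.log m

/-- (C5) diagonally dominant linear system -/
def S_solve : Prop := ∀ (m : ℕ) (A : Finset (Fin m)) (N : Fin m → Fin m → ℝ) (w c : Fin m → ℝ)
  (b : ℝ), (∀ l ∈ A, 0 < w l) → (∀ l ∈ A, |c l| ≤ b) →
  (∀ l ∈ A, ∀ j ∈ A, |N l j - (if l = j then w l else 0)| ≤ w l / (2 * m)) →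
  ∃ y : Fin m → ℝ, (∀ j, j ∉ A → y j = 0) ∧ (∀ l ∈ A, ∑ j, N l j * y j = - c l) ∧
    ∑ j, |y j| ≤ 2 * b * ∑ l ∈ A, 1 / w l

/-! ## Part D : invariants and the split -/

section inv
variable {m n : ℕ}

/-- `T` invariant -/
def InvT (S : Sys m n) (k : ℕ) (V : Finset (Fin n)) : Prop :=
  ∀ l, S.TT V l ≤ (1 + 4 * S.Th k) * (m * (S.t l / 2 ^ k) + 2 * N1 m)
/-- `N` invariant -/
def InvN (S : Sys m n) (k : ℕ) (V : Finset (Fin n)) : Prop :=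
  ∀ l j, |S.NN V l j - (if l = j then S.t l / 2 ^ k else 0)|
    ≤ 4 * m * S.Th k * (S.t l / 2 ^ k) + 3 * N1 m
/-- end points and their shadows -/
def InvE (S : Sys m n) (k : ℕ) (P A : Fin m → ℝ) : Prop :=
  (∀ l, k < S.a l → P l = A l ∧ |A l| ≤ b0 m) ∧
  (∀ l, S.a l ≤ k → k ≤ S.a l + LL m → |P l - A l| ≤ S.Th k * Ds m)
/-- size of the shadows -/
def InvS (S : Sys m n) (k : ℕ) (A : Fin m → ℝ) : Prop :=
  ∀ i : ℕ, S.J k ≤ i → i ≤ m →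
    ∑ l ∈ univ.filter (fun l : Fin m => l.val < i), (A l) ^ 2 ≤ 256 * ((i : ℝ) + S.X k)
/-- the budget for `T` of inactive coordinates -/
def InvG (S : Sys m n) (k : ℕ) (V : Finset (Fin n)) (G : Fin m → ℝ) : Prop :=
  (∀ l, 0 ≤ G l) ∧
  (∀ l, S.a l ≤ k → k ≤ S.a l + LL m →
    (S.TT V l) ^ 2 ≤ (DD m) ^ 2 / 2 ^ (k - S.a l) + 3 * G l) ∧
  ∑ l, G l ≤ 256 * (S.X k : ℝ)
/-- frozen coordinates -/
def InvF (S : Sys m n) (k : ℕ) (V : Finset (Fin n)) (P A A' G : Fin m → ℝ) : Prop :=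
  ∀ l, S.a l + LL m ≤ k → ∀ W : Finset (Fin n), W ⊆ V →
    (P l + ∑ i ∈ W, S.v i l - A l) ^ 2 ≤ 4 + 6 * G l ∧
    (P l + ∑ i ∈ W, S.v i l - A' l) ^ 2 ≤ 4 + 6 * G l

/-- all invariants of a node -/
structure Inv (S : Sys m n) (k : ℕ) (V : Finset (Fin n)) (P P' A A' G : Fin m → ℝ) :
    Prop where
  hP : ∀ l, P' l = P l + ∑ i ∈ V, S.v i l
  T : InvT S k V
  N : InvN S k V
  E : InvE S k P A
  E' : InvE S k P' A'
  Sh : InvS S k A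
  Sh' : InvS S k A'
  Gg : InvG S k V G
  F : InvF S k V P A A' G

/-- result of one split: `W` is the left half of `V`; `e`, `g` are the rounding errors -/
structure Split (S : Sys m n) (k : ℕ) (V W : Finset (Fin n)) (c w e g : Fin m → ℝ) :
    Prop where
  sub : W ⊆ V
  act : ∀ l, k < S.a l → ∑ i ∈ W, S.v i l - (∑ i ∈ V, S.v i l) / 2 = - c l + e l
  inact : ∀ l, S.a l ≤ k →
    |∑ i ∈ W, S.v i l - (∑ i ∈ V, S.v i l) / 2 - e l| ≤ S.th k * Ds m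
  flag : ∀ i : ℕ, ∑ l ∈ univ.filter (fun l : Fin m => S.i0 k ≤ l.val ∧ l.val < i),
    ((e l) ^ 2 + (g l) ^ 2) ≤ 256 * ((i - S.i0 k : ℕ) : ℝ)
  orth : ∑ l, w l * e l ≤ 0
  gN : ∀ l, |g l| ≤ N1 m
  T1 : ∀ l, S.TT W l ≤ (1 / 2 + S.th k) * S.TT V l + |g l|
  T2 : ∀ l, S.TT (V \ W) l ≤ (1 / 2 + S.th k) * S.TT V l + |g l|
  N1' : ∀ l j, |S.NN W l j - S.NN V l j / 2| ≤ S.th k * S.TT V l + N1 m
  N2' : ∀ l j, |S.NN (V \ W) l j - S.NN V l j / 2| ≤ S.th k * S.TT V l + N1 m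

end inv

/-- middle point of the end points of a node -/
def cc {m n : ℕ} (S : Sys m n) (V : Finset (Fin n)) (P : Fin m → ℝ) (l : Fin m) : ℝ :=
  P l + (∑ i ∈ V, S.v i l) / 2
/-- the functional used in the rounding -/
def ww {m n : ℕ} (S : Sys m n) (k : ℕ) (A A' : Fin m → ℝ) (l : Fin m) : ℝ :=
  if S.a l ≤ k ∧ k < S.a l + LL m then (A l + A' l) / 2 else 0
/-- the new end point -/
def MM {m n : ℕ} (S : Sys m n) (W : Finset (Fin n)) (P : Fin m → ℝ) (l : Fin m) : ℝ :=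
  P l + ∑ i ∈ W, S.v i l
/-- its shadow -/
def Ms {m n : ℕ} (S : Sys m n) (k : ℕ) (A A' e : Fin m → ℝ) (l : Fin m) : ℝ :=
  if k < S.a l then e l else if k < S.a l + LL m then (A l + A' l) / 2 + e l
    else (A l + A' l) / 2
/-- the new budget -/
def Gn {m n : ℕ} (S : Sys m n) (k : ℕ) (G g : Fin m → ℝ) (l : Fin m) : ℝ :=
  if S.a l ≤ k ∧ k < S.a l + LL m then G l + (g l) ^ 2 else G l

/-- (D1) steering: solve for the active coordinates -/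
def S_steer : Prop := ∀ (m n : ℕ) (S : Sys m n) (k : ℕ) (V : Finset (Fin n)) (c : Fin m → ℝ),
  1 ≤ m → InvN S k V → (∀ l, k < S.a l → |c l| ≤ b0 m) →
  ∃ y : Fin m → ℝ, (∑ j, |y j| ≤ S.th k) ∧
    (∀ l, k < S.a l → ∑ j, S.NN V l j * y j = - c l) ∧
    (∀ l, S.a l ≤ k → |∑ j, S.NN V l j * y j| ≤ S.th k * Ds m)

/-- (D2) the split -/
def S_split : Prop := ∀ (m n : ℕ) (S : Sys m n) (k : ℕ) (V : Finset (Fin n))
  (c w : Fin m → ℝ), 1 ≤ m → InvN S k V → (∀ l, k < S.a l → |c l| ≤ b0 m) →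
  ∃ (W : Finset (Fin n)) (e g : Fin m → ℝ), Split S k V W c w e g

/-- (D3) -/
def S_stepT : Prop := ∀ (m n : ℕ) (S : Sys m n) (k : ℕ) (V W : Finset (Fin n)) (g : Fin m → ℝ),
  1 ≤ m → InvT S k V → (∀ l, |g l| ≤ N1 m) →
  (∀ l, S.TT W l ≤ (1 / 2 + S.th k) * S.TT V l + |g l|) → InvT S (k + 1) W

/-- (D4) -/
def S_stepN : Prop := ∀ (m n : ℕ) (S : Sys m n) (k : ℕ) (V W : Finset (Fin n)),
  1 ≤ m → InvT S k V → InvN S k V →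
  (∀ l j, |S.NN W l j - S.NN V l j / 2| ≤ S.th k * S.TT V l + N1 m) → InvN S (k + 1) W

/-- (D5) -/
def S_stepE : Prop := ∀ (m n : ℕ) (S : Sys m n) (k : ℕ) (V W : Finset (Fin n))
  (P P' A A' e g : Fin m → ℝ), 1 ≤ m → (∀ l, P' l = P l + ∑ i ∈ V, S.v i l) →
  InvE S k P A → InvE S k P' A' →
  Split S k V W (cc S V P) (ww S k A A') e g →
  InvE S (k + 1) P A ∧ InvE S (k + 1) P' A' ∧ InvE S (k + 1) (MM S W P) (Ms S k A A' e)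

/-- (D6) -/
def S_stepS : Prop := ∀ (m n : ℕ) (S : Sys m n) (k : ℕ) (V W : Finset (Fin n))
  (P A A' e g : Fin m → ℝ), 1 ≤ m → InvS S k A → InvS S k A' →
  Split S k V W (cc S V P) (ww S k A A') e g →
  InvS S (k + 1) A ∧ InvS S (k + 1) A' ∧ InvS S (k + 1) (Ms S k A A' e)

/-- (D7) -/
def S_stepG : Prop := ∀ (m n : ℕ) (S : Sys m n) (k : ℕ) (V W : Finset (Fin n))
  (G e g : Fin m → ℝ), 1 ≤ m → InvG S k V G → InvT S (k + 1) W →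
  (∀ l, S.TT W l ≤ (1 / 2 + S.th k) * S.TT V l + |g l|) →
  (∀ i : ℕ, ∑ l ∈ univ.filter (fun l : Fin m => S.i0 k ≤ l.val ∧ l.val < i),
    ((e l) ^ 2 + (g l) ^ 2) ≤ 256 * ((i - S.i0 k : ℕ) : ℝ)) →
  InvG S (k + 1) W (Gn S k G g)

/-- (D8) frozen coordinates of the children -/
def S_stepF : Prop := ∀ (m n : ℕ) (S : Sys m n) (k : ℕ) (V W : Finset (Fin n))
  (P P' A A' G e g : Fin m → ℝ), 1 ≤ m → W ⊆ V → Inv S k V P P' A A' G →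
  InvE S (k + 1) P A → InvE S (k + 1) P' A' →
  InvE S (k + 1) (MM S W P) (Ms S k A A' e) →
  InvG S (k + 1) W (Gn S k G g) → InvG S (k + 1) (V \ W) (Gn S k G g) →
  InvF S (k + 1) W P A (Ms S k A A' e) (Gn S k G g) ∧
  InvF S (k + 1) (V \ W) (MM S W P) (Ms S k A A' e) A' (Gn S k G g)

/-- (D9) one step of the tree (assembly of D2-D8) -/
def S_tstep : Prop := ∀ (m n : ℕ) (S : Sys m n) (k : ℕ) (V : Finset (Fin n))
  (P P' A A' G : Fin m → ℝ), 1 ≤ m → Inv S k V P P' A A' G →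
  ∃ (W : Finset (Fin n)) (M B G' : Fin m → ℝ), W ⊆ V ∧
    Inv S (k + 1) W P M A B G' ∧ Inv S (k + 1) (V \ W) M P' B A' G'

/-- (D10) the root -/
def S_root : Prop := ∀ (m n : ℕ) (S : Sys m n), 1 ≤ m → Inv S 0 univ 0 0 0 0 0

/-- (D11) the leaves -/
def S_leaf : Prop := ∀ (m n : ℕ) (S : Sys m n) (k : ℕ) (V : Finset (Fin n))
  (P P' A A' G : Fin m → ℝ), 1 ≤ m → Inv S k V P P' A A' G → (∀ l, S.a l + LL m ≤ k) →
  ∀ W ⊆ V, ∑ l, (P l + ∑ i ∈ W, S.v i l) ^ 2 ≤ 4104 * LL m * m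

/-- (E1) the tree: an ordering of all the indices with all prefix sums bounded -/
def S_tree : Prop := ∀ (m n : ℕ) (S : Sys m n), 1 ≤ m →
  ∃ s : List (Fin n), s.Nodup ∧ (∀ i, i ∈ s) ∧
    ∀ r : ℕ, ∑ l, (((s.take r).map (fun i => S.v i l)).sum) ^ 2 ≤ 4104 * LL m * m

/-- (E2) an ordering for every spanning family -/
def S_span : Prop := ∀ (m n : ℕ), 1 ≤ m → ∀ v : Fin n → Fin m → ℝ,
  (∀ i, ∑ l, (v i l) ^ 2 ≤ 1) → (∀ l, ∑ i, v i l = 0) →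
  (∀ w : Fin m → ℝ, (∀ i, ∑ l, w l * v i l = 0) → w = 0) →
  ∃ s : List (Fin n), s.Nodup ∧ (∀ i, i ∈ s) ∧
    ∀ r : ℕ, ∑ l, (((s.take r).map (fun i => v i l)).sum) ^ 2 ≤ 4104 * LL m * m

/-- (E3) an ordering for every family: add the vectors `± e_j` and delete them at the end -/
def S_gen : Prop := ∀ (m n : ℕ), 1 ≤ m → ∀ v : Fin n → Fin m → ℝ,
  (∀ i, ∑ l, (v i l) ^ 2 ≤ 1) → (∀ l, ∑ i, v i l = 0) →
  ∃ s : List (Fin n), s.Nodup ∧ (∀ i, i ∈ s) ∧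
    ∀ r : ℕ, Real.sqrt (∑ l, (((s.take r).map (fun i => v i l)).sum) ^ 2)
      ≤ Real.sqrt (4104 * LL m * m) + Real.sqrt m

/-- (E4) the theorem -/
def S_main : Prop := ∀ m n : ℕ, 1 ≤ m → ∀ v : Fin n → EuclideanSpace ℝ (Fin m),
  (∀ i, ‖v i‖ ≤ 1) → ∑ i, v i = 0 →
  ∃ π : Equiv.Perm (Fin n), ∀ k : ℕ,
    ‖∑ i ∈ Finset.univ.filter (fun i : Fin n => i.val < k), v (π i)‖
      ≤ 440 * Real.sqrt ((m : ℝ) * (1 + Real.log m))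

end

end Pool.Agent.H380R3.SZ
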