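import Pool.Agent.H380R3.SZ.Defs

/-! Task A2: vertex reduction. -/

set_option autoImplicit false

namespace Pool.Agent.H380R3.SZ

open Finset

theorem A2_dir {ι Q : Type} [Fintype Q] (V F : Finset ι) (hF : F ⊆ V) (f : Q → ι → ℝ)
    (h : Fintype.card Q < F.card) :
    ∃ z : ι → ℝ, (∀ i, i ∉ F → z i = 0) ∧ (∃ i, z i ≠ 0) ∧ ∀ q, ∑ i ∈ V, z i * f q i = 0 := by
  classical
  let L : (F → ℝ) →ₗ[ℝ] (Q → ℝ) :=
    LinearMap.pi (fun q => ∑ i : F, f q i • LinearMap.proj (R := ℝ) (φ := fun _ : F => ℝ) i)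
  have hker : LinearMap.ker L ≠ ⊥ := by
    apply LinearMap.ker_ne_bot_of_finrank_lt
    rw [Module.finrank_fintype_fun_eq_card, Module.finrank_fintype_fun_eq_card,
      Fintype.card_coe]
    exact h
  obtain ⟨y, hy, hy0⟩ := (Submodule.ne_bot_iff _).1 hker
  rw [LinearMap.mem_ker] at hy
  refine ⟨fun i => if h : i ∈ F then y ⟨i, h⟩ else 0, ?_, ?_, ?_⟩
  · intro i hi
    simp [hi]
  · obtain ⟨i, hi⟩ := Function.ne_iff.1 hy0
    refine ⟨i.1, ?_⟩
    simpa [i.2] using hi
  · intro q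
    have h1 := congrFun hy q
    have h2 : L y q = ∑ i : F, f q i * y i := by
      simp [L, LinearMap.sum_apply]
    rw [h2] at h1
    rw [← Finset.sum_subset hF (fun i _ hi => by simp [hi]), ← Finset.sum_coe_sort F]
    rw [← (show ∑ i : F, f q i * y i = 0 from h1)]
    refine Finset.sum_congr rfl fun i _ => ?_
    simp [i.2, mul_comm]

theorem tA2 (h1 : S_move) : S_vertex := by
  classical
  intro ι Q _ V x f hx
  have key : ∀ (n : ℕ) (x : ι → ℝ), In01 V x → (frac V x).card = n →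
      ∃ x' : ι → ℝ, In01 V x' ∧ (∀ q, ∑ i ∈ V, x' i * f q i = ∑ i ∈ V, x i * f q i) ∧
        (frac V x').card ≤ Fintype.card Q := by
    intro n
    induction n using Nat.strong_induction_on with
    | _ n ih =>
      intro x hx hn
      by_cases hc : (frac V x).card ≤ Fintype.card Q
      · exact ⟨x, hx, fun q => rfl, hc⟩
      · obtain ⟨z, hz1, hz2, hz3⟩ := A2_dir V (frac V x)
          (fun i hi => (Finset.mem_filter.1 hi).1) f (not_le.1 hc)
        obtain ⟨c, hc0, h2, h3⟩ := h1 ι V x z hx hz1 hz2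
        obtain ⟨x', g1, g2, g3⟩ := ih _ (by rw [← hn]; exact h3) (fun i => x i + c * z i) h2 rfl
        refine ⟨x', g1, fun q => ?_, g3⟩
        rw [g2 q]
        have h4 : ∑ i ∈ V, (x i + c * z i) * f q i =
            ∑ i ∈ V, x i * f q i + c * ∑ i ∈ V, z i * f q i := by
          rw [Finset.mul_sum, ← Finset.sum_add_distrib]
          exact Finset.sum_congr rfl fun i _ => by ring
        rw [h4, hz3 q, mul_zero, add_zero]
  exact key _ x hx rfl

end Pool.Agent.H380R3.SZ
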