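import Pool.Agent.H380R3.SZ.Defs

set_option autoImplicit false

namespace Pool.Agent.H380R3.SZ

open Finset

theorem tA3 : S_dir := by
  classical
  intro ι κ Q _ _ F v f hv hF hcard
  let E := EuclideanSpace ℝ F
  let L : E →ₗ[ℝ] (Q → ℝ) :=
    { toFun := fun z q => ∑ i : F, z i * f q i
      map_add' := by
        intro z w; funext q
        have h : ∀ x, (z + w) x = z x + w x := fun x => rfl
        simp only [h, Pi.add_apply, add_mul, Finset.sum_add_distrib]
      map_smul' := by
        intro c z; funext q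
        have h : ∀ x, (c • z) x = c * z x := fun x => rfl
        simp only [h, smul_eq_mul, RingHom.id_apply, Pi.smul_apply, Finset.mul_sum,
          mul_assoc] }
  let K : Submodule ℝ E := LinearMap.ker L
  have hdim : Module.finrank ℝ E = F.card := by
    simp [E]
  have hr : Module.finrank ℝ (LinearMap.range L) + Module.finrank ℝ K = F.card := by
    rw [← hdim]; exact LinearMap.finrank_range_add_finrank_ker L
  have hr2 : Module.finrank ℝ (LinearMap.range L) ≤ Fintype.card Q := by
    have := Submodule.finrank_le (LinearMap.range L)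
    simpa using this
  let b := stdOrthonormalBasis ℝ K
  set d := Module.finrank ℝ K with hd
  have hd2 : F.card ≤ 2 * d := by omega
  have hFpos : 0 < F.card := Finset.card_pos.mpr hF
  have hon : Orthonormal ℝ (fun k => (b k : E)) := by
    have := b.orthonormal
    exact this.comp_linearIsometry K.subtypeₗᵢ
  let w : κ → E := fun j => WithLp.toLp 2 (fun i : F => v i j)
  have hbess : ∀ j, ∑ k, (inner ℝ (b k : E) (w j)) ^ 2 ≤ ‖w j‖ ^ 2 := by
    intro j
    have := hon.sum_inner_products_le (w j) (s := Finset.univ)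
    simpa [Real.norm_eq_abs, sq_abs] using this
  have hnorm : ∀ j, ‖w j‖ ^ 2 = ∑ i : F, (v i j) ^ 2 := by
    intro j
    rw [EuclideanSpace.norm_sq_eq]
    simp [w]
  have htot : ∑ k, ∑ j, (inner ℝ (b k : E) (w j)) ^ 2 ≤ 2 * F.card := by
    rw [Finset.sum_comm]
    calc ∑ j, ∑ k, (inner ℝ (b k : E) (w j)) ^ 2 ≤ ∑ j, ∑ i : F, (v i j) ^ 2 := by
          apply Finset.sum_le_sum; intro j _; rw [← hnorm j]; exact hbess j
      _ = ∑ i : F, ∑ j, (v i j) ^ 2 := Finset.sum_comm
      _ ≤ ∑ i : F, (2 : ℝ) := by
          apply Finset.sum_le_sum; intro i _; exact hv i i.2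
      _ = 2 * F.card := by simp [mul_comm]
  have hex : ∃ k, ∑ j, (inner ℝ (b k : E) (w j)) ^ 2 ≤ 4 := by
    by_contra hcon
    push Not at hcon
    have h1 : (4 : ℝ) * d < ∑ k, ∑ j, (inner ℝ (b k : E) (w j)) ^ 2 := by
      have hne : (Finset.univ : Finset (Fin d)).Nonempty := by
        rw [Finset.univ_nonempty_iff]; exact ⟨⟨0, by omega⟩⟩
      have := Finset.sum_lt_sum_of_nonempty hne (fun k _ => hcon k)
      simpa [mul_comm] using this
    have h2 : (F.card : ℝ) ≤ 2 * d := by exact_mod_cast hd2
    linarith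
  obtain ⟨k, hk⟩ := hex
  have hbk : ‖(b k : E)‖ = 1 := hon.1 k
  refine ⟨fun i => if h : i ∈ F then (b k : E) ⟨i, h⟩ else 0, ?_, ?_, ?_, ?_⟩
  · intro i hi; simp [hi]
  · by_contra hcon
    push Not at hcon
    have : (b k : E) = 0 := by
      ext i
      have := hcon i
      simpa using this
    rw [this] at hbk; simp at hbk
  · intro q
    have hker : L (b k : E) = 0 := (b k).2
    have h1 := congrFun hker q
    have h2 : ∑ i : F, (b k : E) i * f q i = 0 := h1
    rw [← Finset.sum_coe_sort]
    rw [← h2]
    apply Finset.sum_congr rfl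
    intro i _
    simp
  · have e1 : ∑ i ∈ F, (if h : i ∈ F then (b k : E) ⟨i, h⟩ else 0) ^ 2 = 1 := by
      rw [← Finset.sum_coe_sort]
      have : ∑ i : F, ((b k : E) i) ^ 2 = 1 := by
        have := EuclideanSpace.norm_sq_eq (b k : E)
        rw [hbk] at this
        simpa using this.symm
      rw [← this]
      apply Finset.sum_congr rfl
      intro i _
      simp
    rw [e1]
    have e2 : ∀ j, ∑ i ∈ F, (if h : i ∈ F then (b k : E) ⟨i, h⟩ else 0) * v i j
        = inner ℝ (b k : E) (w j) := by
      intro j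
      rw [← Finset.sum_coe_sort]
      rw [PiLp.inner_apply]
      apply Finset.sum_congr rfl
      intro i _
      simp [w, mul_comm]
    simp only [e2]
    linarith

end Pool.Agent.H380R3.SZ
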