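import Pool.Agent.H380R3.SZ.Defs

set_option autoImplicit false

namespace Pool.Agent.H380R3.SZ

open Finset

theorem tA4_sign {ι κ : Type} [Fintype κ] (F : Finset ι) (v : ι → κ → ℝ) (err : κ → ℝ)
    {Q : Type} (f : Q → ι → ℝ)
    (h : ∃ z : ι → ℝ, (∀ i, i ∉ F → z i = 0) ∧ (∃ i, z i ≠ 0) ∧ (∀ q, ∑ i ∈ F, z i * f q i = 0) ∧
      ∑ j, (∑ i ∈ F, z i * v i j) ^ 2 ≤ 4 * ∑ i ∈ F, (z i) ^ 2) :
    ∃ z : ι → ℝ, (∀ i, i ∉ F → z i = 0) ∧ (∃ i, z i ≠ 0) ∧ (∀ q, ∑ i ∈ F, z i * f q i = 0) ∧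
      ∑ j, (∑ i ∈ F, z i * v i j) ^ 2 ≤ 4 * ∑ i ∈ F, (z i) ^ 2 ∧
      ∑ j, err j * ∑ i ∈ F, z i * v i j ≤ 0 := by
  obtain ⟨z, h1, ⟨i0, hi0⟩, h3, h4⟩ := h
  by_cases hs : ∑ j, err j * ∑ i ∈ F, z i * v i j ≤ 0
  · exact ⟨z, h1, ⟨i0, hi0⟩, h3, h4, hs⟩
  · refine ⟨fun i => - z i, fun i hi => by simp only [h1 i hi, neg_zero],
      ⟨i0, neg_ne_zero.2 hi0⟩, fun q => ?_, ?_, ?_⟩
    · have : ∑ i ∈ F, -z i * f q i = -∑ i ∈ F, z i * f q i := by
        rw [← Finset.sum_neg_distrib]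
        exact Finset.sum_congr rfl (fun i _ => by ring)
      rw [this, h3, neg_zero]
    · have e1 : ∀ j, ∑ i ∈ F, -z i * v i j = -∑ i ∈ F, z i * v i j := by
        intro j
        rw [← Finset.sum_neg_distrib]
        exact Finset.sum_congr rfl (fun i _ => by ring)
      simp only [e1, neg_sq]
      exact h4
    · have e1 : ∀ j, ∑ i ∈ F, -z i * v i j = -∑ i ∈ F, z i * v i j := by
        intro j
        rw [← Finset.sum_neg_distrib]
        exact Finset.sum_congr rfl (fun i _ => by ring)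
      simp only [e1, mul_neg, Finset.sum_neg_distrib]
      linarith

theorem tA4 (h1 : S_move) (h2 : S_dir) : S_step := by
  intro ι κ _ V Pr v φ x err hv hx hc
  classical
  have hFV : frac V x ⊆ V := Finset.filter_subset _ _
  let f : (↥Pr ⊕ Bool) → ι → ℝ := fun q =>
    match q with
    | Sum.inl j => fun i => v i j.1
    | Sum.inr true => φ
    | Sum.inr false => fun i => 2 * x i - 1
  have hQ : Fintype.card (↥Pr ⊕ Bool) = Pr.card + 2 := by
    rw [Fintype.card_sum, Fintype.card_coe, Fintype.card_bool]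
  have hne : (frac V x).Nonempty := by
    rw [← Finset.card_pos]; omega
  obtain ⟨z, hz0, hzne, hzf, hzn, hzs⟩ := tA4_sign (frac V x) v err f
    (h2 ι κ (↥Pr ⊕ Bool) (frac V x) v f (fun i hi => hv i (hFV hi)) hne (by rw [hQ]; exact hc))
  obtain ⟨c, hc0, hc1, hc2⟩ := h1 ι V x z hx hz0 hzne
  have hsub : ∀ g : ι → ℝ, ∑ i ∈ V, (x i + c * z i - x i) * g i = c * ∑ i ∈ frac V x, z i * g i := by
    intro g
    have e1 : ∑ i ∈ frac V x, z i * g i = ∑ i ∈ V, z i * g i := by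
      apply Finset.sum_subset hFV
      intro i _ hi
      rw [hz0 i hi, zero_mul]
    rw [e1, Finset.mul_sum]
    exact Finset.sum_congr rfl (fun i _ => by ring)
  have hzz : ∑ i ∈ frac V x, (z i) ^ 2 = ∑ i ∈ V, (z i) ^ 2 := by
    apply Finset.sum_subset hFV
    intro i _ hi
    rw [hz0 i hi]; ring
  have hz2 : ∑ i ∈ frac V x, z i * (2 * x i - 1) = ∑ i ∈ V, z i * (2 * x i - 1) := by
    apply Finset.sum_subset hFV
    intro i _ hi
    rw [hz0 i hi]; ring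
  refine ⟨fun i => x i + c * z i, hc1, ?_, hc2, ?_, ?_, ?_⟩
  · intro i hi
    simp only [hz0 i hi, mul_zero, add_zero]
  · intro j hj
    rw [hsub (fun i => v i j)]
    have := hzf (Sum.inl ⟨j, hj⟩)
    simp only [f] at this
    rw [this, mul_zero]
  · rw [hsub φ]
    have := hzf (Sum.inr true)
    simp only [f] at this
    rw [this, mul_zero]
  · have h3 := hzf (Sum.inr false)
    simp only [f] at h3
    have e1 : ∀ j, ∑ i ∈ V, (x i + c * z i - x i) * v i j = c * ∑ i ∈ frac V x, z i * v i j :=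
      fun j => hsub (fun i => v i j)
    simp only [e1]
    have e2 : ∑ j, (err j + c * ∑ i ∈ frac V x, z i * v i j) ^ 2 - ∑ j, (err j) ^ 2 =
        2 * c * ∑ j, err j * ∑ i ∈ frac V x, z i * v i j +
        c ^ 2 * ∑ j, (∑ i ∈ frac V x, z i * v i j) ^ 2 := by
      rw [← Finset.sum_sub_distrib, Finset.mul_sum, Finset.mul_sum, ← Finset.sum_add_distrib]
      exact Finset.sum_congr rfl (fun j _ => by ring)
    have e3 : ∑ i ∈ V, (x i + c * z i - 1 / 2) ^ 2 - ∑ i ∈ V, (x i - 1 / 2) ^ 2 =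
        c * ∑ i ∈ V, z i * (2 * x i - 1) + c ^ 2 * ∑ i ∈ V, (z i) ^ 2 := by
      rw [← Finset.sum_sub_distrib, Finset.mul_sum, Finset.mul_sum, ← Finset.sum_add_distrib]
      exact Finset.sum_congr rfl (fun j _ => by ring)
    rw [e2, e3, ← hz2, h3, ← hzz]
    have e4 : 2 * c * ∑ j, err j * ∑ i ∈ frac V x, z i * v i j ≤ 0 :=
      mul_nonpos_of_nonneg_of_nonpos (by positivity) hzs
    have e5 := mul_le_mul_of_nonneg_left hzn (sq_nonneg c)
    linarith

end Pool.Agent.H380R3.SZ
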