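import Pool.Agent.H380R3.SZ.Defs

set_option autoImplicit false

namespace Pool.Agent.H380R3.SZ

open Finset

theorem tA5 (h1 : S_step) : S_stage := by
  intro ι κ _ V Pr v φ x0 h hv hx0 hh
  classical
  -- the invariant
  have claim : ∀ N : ℕ, ∀ x : ι → ℝ, (frac V x).card = N → In01 V x →
      (∀ i, i ∉ frac V x0 → x i = x0 i) →
      (∀ j ∈ Pr, ∑ i ∈ V, (x i - x0 i) * v i j = 0) →
      ∑ i ∈ V, (x i - x0 i) * φ i = 0 →
      ∑ j, (∑ i ∈ V, (x i - x0 i) * v i j) ^ 2 ≤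
        4 * (∑ i ∈ V, (x i - 1 / 2) ^ 2 - ∑ i ∈ V, (x0 i - 1 / 2) ^ 2) →
      ∃ x' : ι → ℝ, In01 V x' ∧ (∀ i, i ∉ frac V x0 → x' i = x0 i) ∧ (frac V x').card ≤ h ∧
        (∀ j ∈ Pr, ∑ i ∈ V, (x' i - x0 i) * v i j = 0) ∧
        ∑ i ∈ V, (x' i - x0 i) * φ i = 0 ∧
        ∑ j, (∑ i ∈ V, (x' i - x0 i) * v i j) ^ 2 ≤
          4 * (∑ i ∈ V, (x' i - 1 / 2) ^ 2 - ∑ i ∈ V, (x0 i - 1 / 2) ^ 2) := by
    intro N
    induction N using Nat.strong_induction_on with
    | _ N ih =>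
      intro x hN hx hoff hPr hφ hpot
      by_cases hle : (frac V x).card ≤ h
      · exact ⟨x, hx, hoff, hle, hPr, hφ, hpot⟩
      · obtain ⟨x1, a1, a2, a3, a4, a5, a6⟩ := h1 ι κ V Pr v φ x
          (fun j => ∑ i ∈ V, (x i - x0 i) * v i j) hv hx (by omega)
        have hadd : ∀ g : ι → ℝ, ∑ i ∈ V, (x1 i - x0 i) * g i =
            ∑ i ∈ V, (x i - x0 i) * g i + ∑ i ∈ V, (x1 i - x i) * g i := by
          intro g
          rw [← Finset.sum_add_distrib]
          exact Finset.sum_congr rfl (fun i _ => by ring)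
        refine ih (frac V x1).card (by omega) x1 rfl a1 ?_ ?_ ?_ ?_
        · intro i hi
          have hi2 : i ∉ frac V x := by
            intro h3
            apply hi
            unfold frac at h3 ⊢
            rw [Finset.mem_filter] at h3 ⊢
            rw [← hoff i hi]
            exact h3
          rw [a2 i hi2, hoff i hi]
        · intro j hj
          rw [hadd (fun i => v i j), hPr j hj, a4 j hj, add_zero]
        · rw [hadd φ, hφ, a5, add_zero]
        · have e1 : ∀ j, ∑ i ∈ V, (x1 i - x0 i) * v i j =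
              ∑ i ∈ V, (x i - x0 i) * v i j + ∑ i ∈ V, (x1 i - x i) * v i j :=
            fun j => hadd (fun i => v i j)
          simp only [e1]
          linarith
  obtain ⟨x', b1, b2, b3, b4, b5, b6⟩ := claim _ x0 rfl hx0 (fun _ _ => rfl)
    (fun j _ => by simp) (by simp) (by simp)
  refine ⟨x', b1, b2, b3, b4, b5, b6.trans ?_⟩
  have hFV : frac V x0 ⊆ V := Finset.filter_subset _ _
  have e1 : ∑ i ∈ V, (x' i - 1 / 2) ^ 2 - ∑ i ∈ V, (x0 i - 1 / 2) ^ 2 =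
      ∑ i ∈ frac V x0, ((x' i - 1 / 2) ^ 2 - (x0 i - 1 / 2) ^ 2) := by
    rw [← Finset.sum_sub_distrib]
    symm
    apply Finset.sum_subset hFV
    intro i _ hi
    rw [b2 i hi, sub_self]
  have e2 : ∑ i ∈ frac V x0, ((x' i - 1 / 2) ^ 2 - (x0 i - 1 / 2) ^ 2) ≤
      ∑ _i ∈ frac V x0, (1 / 4 : ℝ) := by
    apply Finset.sum_le_sum
    intro i hi
    obtain ⟨c1, c2⟩ := b1 i (hFV hi)
    nlinarith [sq_nonneg (x0 i - 1 / 2), mul_nonneg c1 (sub_nonneg.2 c2)]
  rw [Finset.sum_const, nsmul_eq_mul] at e2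
  rw [e1]
  linarith

end Pool.Agent.H380R3.SZ
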