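import Pool.Agent.H380R3.SZ.Defs

set_option autoImplicit false

namespace Pool.Agent.H380R3.SZ

open Finset

/-- the induction statement -/
private def tA6_H {ι κ : Type} [Fintype κ] (pos : κ → ℕ) (V : Finset ι) (v : ι → κ → ℝ)
    (φ : ι → ℝ) (s : ℕ) : Prop :=
  ∀ x : ι → ℝ, In01 V x → (frac V x).card ≤ 2 ^ (s + 3) →
    ∃ W : Finset ι, W ⊆ V ∧ (∀ i ∈ V, x i = 1 → i ∈ W) ∧ (∀ i ∈ W, x i ≠ 0) ∧
    (∀ k : ℕ, ∑ j ∈ univ.filter (fun j => pos j < k),
      (∑ i ∈ W, v i j - ∑ i ∈ V, x i * v i j) ^ 2 ≤ 256 * (k : ℝ)) ∧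
    (∑ j, (∑ i ∈ W, v i j - ∑ i ∈ V, x i * v i j) ^ 2 ≤ 128 * 2 ^ s) ∧
    ∑ i ∈ W, φ i ≤ ∑ i ∈ V, x i * φ i

private theorem tA6_base {ι κ : Type} [Fintype κ] (pos : κ → ℕ) (V : Finset ι) (v : ι → κ → ℝ)
    (φ : ι → ℝ) (hv : ∀ i ∈ V, ∑ j, (v i j) ^ 2 ≤ 2) : tA6_H pos V v φ 0 := by
  classical
  intro x hx hcard
  have hcard8 : ((frac V x).card : ℝ) ≤ 8 := by
    have : (frac V x).card ≤ 8 := by simpa using hcard
    exact_mod_cast this
  set W : Finset ι := V.filter (fun i => x i = 1 ∨ (x i ≠ 0 ∧ φ i ≤ 0)) with hW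
  -- the error coefficients
  set ε : ι → ℝ := fun i => (if i ∈ W then 1 else 0) - x i with hε
  have hWV : W ⊆ V := filter_subset _ _
  have hsumW : ∀ g : ι → ℝ, ∑ i ∈ W, g i - ∑ i ∈ V, x i * g i = ∑ i ∈ frac V x, ε i * g i := by
    intro g
    have h1 : ∑ i ∈ W, g i = ∑ i ∈ V, (if i ∈ W then 1 else 0) * g i := by
      rw [← sum_subset hWV (f := fun i => (if i ∈ W then (1 : ℝ) else 0) * g i)]
      · refine sum_congr rfl fun i hi => ?_
        simp [hi]
      · intro i _ hi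
        simp [hi]
    rw [h1, ← sum_sub_distrib]
    have hsub : frac V x ⊆ V := filter_subset _ _
    rw [← sum_subset hsub (f := fun i => (if i ∈ W then (1 : ℝ) else 0) * g i - x i * g i)]
    · refine sum_congr rfl fun i _ => ?_
      simp only [hε]
      ring
    · intro i hi hif
      have h01 := hx i hi
      have hcases : x i = 0 ∨ x i = 1 := by
        by_contra hcon
        push Not at hcon
        apply hif
        rw [frac, mem_filter]
        exact ⟨hi, lt_of_le_of_ne h01.1 (Ne.symm hcon.1), lt_of_le_of_ne h01.2 hcon.2⟩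
      rcases hcases with h0 | h1'
      · have : i ∉ W := by
          rw [hW, mem_filter]
          rintro ⟨_, h | h⟩
          · rw [h0] at h; exact zero_ne_one h
          · exact h.1 h0
        simp [this, h0]
      · have : i ∈ W := by
          rw [hW, mem_filter]
          exact ⟨hi, Or.inl h1'⟩
        simp [this, h1']
  have hε1 : ∀ i ∈ frac V x, (ε i) ^ 2 ≤ 1 := by
    intro i hi
    rw [frac, mem_filter] at hi
    obtain ⟨_, h0, h1⟩ := hi
    simp only [hε]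
    split_ifs <;> nlinarith
  have hεφ : ∀ i ∈ frac V x, ε i * φ i ≤ 0 := by
    intro i hi
    rw [frac, mem_filter] at hi
    obtain ⟨hiV, h0, h1⟩ := hi
    simp only [hε]
    by_cases hφ : φ i ≤ 0
    · have : i ∈ W := by
        rw [hW, mem_filter]
        exact ⟨hiV, Or.inr ⟨h0.ne', hφ⟩⟩
      simp only [this, if_true]
      exact mul_nonpos_of_nonneg_of_nonpos (by linarith) hφ
    · have : i ∉ W := by
        rw [hW, mem_filter]
        rintro ⟨_, h | h⟩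
        · exact h1.ne h
        · exact hφ h.2
      simp only [this, if_false]
      push Not at hφ
      nlinarith
  have htotal : ∑ j, (∑ i ∈ W, v i j - ∑ i ∈ V, x i * v i j) ^ 2 ≤ 128 := by
    have h1 : ∀ j, (∑ i ∈ W, v i j - ∑ i ∈ V, x i * v i j) ^ 2 ≤
        8 * ∑ i ∈ frac V x, (v i j) ^ 2 := by
      intro j
      rw [hsumW (fun i => v i j)]
      refine (sum_mul_sq_le_sq_mul_sq _ _ _).trans ?_
      refine mul_le_mul_of_nonneg_right ?_ (sum_nonneg fun i _ => sq_nonneg _)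
      calc ∑ i ∈ frac V x, (ε i) ^ 2 ≤ ∑ i ∈ frac V x, (1 : ℝ) := sum_le_sum hε1
        _ = ((frac V x).card : ℝ) := by simp
        _ ≤ 8 := hcard8
    calc ∑ j, (∑ i ∈ W, v i j - ∑ i ∈ V, x i * v i j) ^ 2
        ≤ ∑ j, 8 * ∑ i ∈ frac V x, (v i j) ^ 2 := sum_le_sum fun j _ => h1 j
      _ = 8 * ∑ i ∈ frac V x, ∑ j, (v i j) ^ 2 := by rw [← mul_sum, sum_comm]
      _ ≤ 8 * ∑ i ∈ frac V x, (2 : ℝ) := by
          refine mul_le_mul_of_nonneg_left (sum_le_sum fun i hi => hv i ?_) (by norm_num)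
          exact (filter_subset _ _) hi
      _ = 8 * (((frac V x).card : ℝ) * 2) := by simp
      _ ≤ 128 := by nlinarith
  refine ⟨W, hWV, ?_, ?_, ?_, ?_, ?_⟩
  · intro i hi h1
    rw [hW, mem_filter]
    exact ⟨hi, Or.inl h1⟩
  · intro i hi
    rw [hW, mem_filter] at hi
    rcases hi.2 with h | h
    · rw [h]; exact one_ne_zero
    · exact h.1
  · intro k
    rcases Nat.eq_zero_or_pos k with hk | hk
    · subst hk
      simp
    · have hk1 : (1 : ℝ) ≤ k := by exact_mod_cast hk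
      calc ∑ j ∈ univ.filter (fun j => pos j < k),
            (∑ i ∈ W, v i j - ∑ i ∈ V, x i * v i j) ^ 2
          ≤ ∑ j, (∑ i ∈ W, v i j - ∑ i ∈ V, x i * v i j) ^ 2 :=
            sum_le_sum_of_subset_of_nonneg (filter_subset _ _) fun _ _ _ => sq_nonneg _
        _ ≤ 128 := htotal
        _ ≤ 256 * (k : ℝ) := by linarith
  · simpa using htotal
  · have h1 := hsumW φ
    have h2 : ∑ i ∈ frac V x, ε i * φ i ≤ 0 := sum_nonpos hεφ
    linarith

private theorem tA6_step (h1 : S_stage) {ι κ : Type} [Fintype κ] (pos : κ → ℕ) (V : Finset ι)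
    (v : ι → κ → ℝ) (φ : ι → ℝ) (hpos : ∀ k : ℕ, (univ.filter (fun j => pos j < k)).card ≤ 2 * k)
    (hv : ∀ i ∈ V, ∑ j, (v i j) ^ 2 ≤ 2) (s : ℕ) (hs : tA6_H pos V v φ s) :
    tA6_H pos V v φ (s + 1) := by
  classical
  intro x hx hcard
  have h2s : 1 ≤ 2 ^ s := Nat.one_le_two_pow
  obtain ⟨x', hx', hfix, hcard', hPr, hφ, herr⟩ := h1 ι κ V (univ.filter (fun j => pos j < 2 ^ s))
    v φ x (2 ^ (s + 3)) hv hx (by
      have := hpos (2 ^ s)
      have h8 : 2 ^ (s + 3) = 8 * 2 ^ s := by ring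
      omega)
  obtain ⟨W, hWV, hW1, hW0, hWk, hWt, hWφ⟩ := hs x' hx' hcard'
  have hsplit : ∀ g : ι → ℝ, ∑ i ∈ W, g i - ∑ i ∈ V, x i * g i =
      (∑ i ∈ W, g i - ∑ i ∈ V, x' i * g i) + ∑ i ∈ V, (x' i - x i) * g i := by
    intro g
    simp only [sub_mul, sum_sub_distrib]
    ring
  have htotal : ∑ j, (∑ i ∈ W, v i j - ∑ i ∈ V, x i * v i j) ^ 2 ≤ 240 * 2 ^ s := by
    have hle : ∀ j, (∑ i ∈ W, v i j - ∑ i ∈ V, x i * v i j) ^ 2 ≤
        3 / 2 * (∑ i ∈ W, v i j - ∑ i ∈ V, x' i * v i j) ^ 2 +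
        3 * (∑ i ∈ V, (x' i - x i) * v i j) ^ 2 := by
      intro j
      rw [hsplit (fun i => v i j)]
      nlinarith [sq_nonneg ((∑ i ∈ W, v i j - ∑ i ∈ V, x' i * v i j) -
        2 * ∑ i ∈ V, (x' i - x i) * v i j)]
    have h3 : ((frac V x).card : ℝ) ≤ 16 * 2 ^ s := by
      have : (frac V x).card ≤ 16 * 2 ^ s := by
        refine hcard.trans (le_of_eq ?_)
        ring
      exact_mod_cast this
    calc ∑ j, (∑ i ∈ W, v i j - ∑ i ∈ V, x i * v i j) ^ 2
        ≤ ∑ j, (3 / 2 * (∑ i ∈ W, v i j - ∑ i ∈ V, x' i * v i j) ^ 2 +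
            3 * (∑ i ∈ V, (x' i - x i) * v i j) ^ 2) := sum_le_sum fun j _ => hle j
      _ = 3 / 2 * ∑ j, (∑ i ∈ W, v i j - ∑ i ∈ V, x' i * v i j) ^ 2 +
            3 * ∑ j, (∑ i ∈ V, (x' i - x i) * v i j) ^ 2 := by
          rw [sum_add_distrib, ← mul_sum, ← mul_sum]
      _ ≤ 3 / 2 * (128 * 2 ^ s) + 3 * (16 * 2 ^ s) := by
          have := herr.trans h3
          linarith
      _ = 240 * 2 ^ s := by ring
  refine ⟨W, hWV, ?_, ?_, ?_, ?_, ?_⟩
  · intro i hi hxi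
    apply hW1 i hi
    rw [hfix i, hxi]
    rw [frac, mem_filter]
    rintro ⟨_, _, h⟩
    exact h.ne hxi
  · intro i hi hxi
    apply hW0 i hi
    rw [hfix i, hxi]
    rw [frac, mem_filter]
    rintro ⟨_, h, _⟩
    exact h.ne' hxi
  · intro k
    by_cases hk : k ≤ 2 ^ s
    · refine le_trans (le_of_eq ?_) (hWk k)
      refine sum_congr rfl fun j hj => ?_
      rw [mem_filter] at hj
      rw [hsplit (fun i => v i j), hPr j (by
        rw [mem_filter]
        exact ⟨mem_univ _, lt_of_lt_of_le hj.2 hk⟩), add_zero]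
    · push Not at hk
      have hk1 : (2 : ℝ) ^ s ≤ k := by exact_mod_cast hk.le
      calc ∑ j ∈ univ.filter (fun j => pos j < k),
            (∑ i ∈ W, v i j - ∑ i ∈ V, x i * v i j) ^ 2
          ≤ ∑ j, (∑ i ∈ W, v i j - ∑ i ∈ V, x i * v i j) ^ 2 :=
            sum_le_sum_of_subset_of_nonneg (filter_subset _ _) fun _ _ _ => sq_nonneg _
        _ ≤ 240 * 2 ^ s := htotal
        _ ≤ 256 * (k : ℝ) := by nlinarith [pow_pos (two_pos : (0 : ℝ) < 2) s]
  · refine htotal.trans ?_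
    rw [pow_succ]
    nlinarith [pow_pos (two_pos : (0 : ℝ) < 2) s]
  · have h2 : ∑ i ∈ V, x' i * φ i = ∑ i ∈ V, x i * φ i := by
      have := hφ
      simp only [sub_mul, sum_sub_distrib] at this
      linarith
    rw [← h2]
    exact hWφ

/-- (A6) flagged rounding -/
theorem tA6 (h1 : S_stage) : S_round := by
  intro ι κ _ pos V v φ x hpos hv hx
  have hH : ∀ s, tA6_H pos V v φ s := by
    intro s
    induction s with
    | zero => exact tA6_base pos V v φ hv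
    | succ s ih => exact tA6_step h1 pos V v φ hpos hv s ih
  obtain ⟨W, hWV, hW1, hW0, hWk, _, hWφ⟩ := hH (frac V x).card x hx (by
    calc (frac V x).card ≤ 2 ^ (frac V x).card := Nat.lt_two_pow_self.le
      _ ≤ 2 ^ ((frac V x).card + 3) := Nat.pow_le_pow_right (by norm_num) (by omega))
  exact ⟨W, hWV, hW1, hW0, hWk, hWφ⟩

end Pool.Agent.H380R3.SZ
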