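import Mathlib
import Pool.Agent.H380R3.SZ.Defs

set_option autoImplicit false

namespace Pool.Agent.H380R3.SZ

open Finset

theorem tA7_aux {ι : Type} (V W : Finset ι) (x : ι → ℝ) (h01 : In01 V x) (hWV : W ⊆ V)
    (h1 : ∀ i ∈ V, x i = 1 → i ∈ W) (h0 : ∀ i ∈ W, x i ≠ 0) (u : ι → ℝ)
    (hu : ∀ i ∈ V, |u i| ≤ 1) :
    |∑ i ∈ W, u i - ∑ i ∈ V, x i * u i| ≤ ((frac V x).card : ℝ) := by
  classical
  have e1 : ∑ i ∈ W, u i = ∑ i ∈ V, (if i ∈ W then (1:ℝ) else 0) * u i := by
    rw [← Finset.sum_subset hWV]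
    · apply sum_congr rfl
      intro i hi
      rw [if_pos hi, one_mul]
    · intro i _ hi
      rw [if_neg hi, zero_mul]
  rw [e1, ← Finset.sum_sub_distrib]
  have e2 : ∑ i ∈ V, ((if i ∈ W then (1:ℝ) else 0) * u i - x i * u i) =
      ∑ i ∈ frac V x, ((if i ∈ W then (1:ℝ) else 0) * u i - x i * u i) := by
    symm
    apply Finset.sum_subset (Finset.filter_subset _ _)
    intro i hi hf
    have hx := h01 i hi
    have h : x i = 0 ∨ x i = 1 := by
      by_contra hcon
      push Not at hcon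
      exact hf (Finset.mem_filter.2
        ⟨hi, lt_of_le_of_ne hx.1 (Ne.symm hcon.1), lt_of_le_of_ne hx.2 hcon.2⟩)
    rcases h with h | h
    · have hW : i ∉ W := fun hW => h0 i hW h
      rw [if_neg hW, h]; ring
    · rw [if_pos (h1 i hi h), h]; ring
  rw [e2]
  calc |∑ i ∈ frac V x, ((if i ∈ W then (1:ℝ) else 0) * u i - x i * u i)|
      ≤ ∑ i ∈ frac V x, |(if i ∈ W then (1:ℝ) else 0) * u i - x i * u i| :=
        Finset.abs_sum_le_sum_abs _ _
    _ ≤ ∑ i ∈ frac V x, (1:ℝ) := by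
        apply Finset.sum_le_sum
        intro i hi
        have hiV : i ∈ V := (Finset.mem_filter.1 hi).1
        have hx := h01 i hiV
        rw [← sub_mul, abs_mul]
        have ha : |(if i ∈ W then (1:ℝ) else 0) - x i| ≤ 1 := by
          rw [abs_le]
          split_ifs
          · constructor <;> linarith [hx.1, hx.2]
          · constructor <;> linarith [hx.1, hx.2]
        calc |(if i ∈ W then (1:ℝ) else 0) - x i| * |u i| ≤ 1 * 1 :=
              mul_le_mul ha (hu i hiV) (abs_nonneg _) zero_le_one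
          _ = 1 := one_mul 1
    _ = ((frac V x).card : ℝ) := by simp

theorem tA7 (h1 : S_vertex) (h2 : S_round) : S_rnd2 := by
  classical
  intro ι m i0 V v d w x hv hd h01
  obtain ⟨x', h01', hf, hcard⟩ := h1 ι ((Fin m × Fin m) ⊕ (Fin m ⊕ Fin m)) V x
    (fun q i => match q with
      | Sum.inl (l, j) => d j i * v i l
      | Sum.inr (Sum.inl l) => v i l
      | Sum.inr (Sum.inr l) => |v i l|) h01
  have hfd : ∀ l j, ∑ i ∈ V, x' i * (d j i * v i l) = ∑ i ∈ V, x i * (d j i * v i l) :=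
    fun l j => hf (Sum.inl (l, j))
  have hfv : ∀ l, ∑ i ∈ V, x' i * v i l = ∑ i ∈ V, x i * v i l :=
    fun l => hf (Sum.inr (Sum.inl l))
  have hfa : ∀ l, ∑ i ∈ V, x' i * |v i l| = ∑ i ∈ V, x i * |v i l| :=
    fun l => hf (Sum.inr (Sum.inr l))
  have hcard' : ((frac V x').card : ℝ) ≤ N1 m := by
    have hc : Fintype.card ((Fin m × Fin m) ⊕ (Fin m ⊕ Fin m)) = m * m + (m + m) := by
      simp
    rw [hc] at hcard
    have : ((frac V x').card : ℝ) ≤ ((m * m + (m + m) : ℕ) : ℝ) := by exact_mod_cast hcard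
    unfold N1
    push_cast at this
    nlinarith
  have hvabs : ∀ i ∈ V, ∀ l, |v i l| ≤ 1 := by
    intro i hi l
    have h3 : (v i l) ^ 2 ≤ ∑ l, (v i l) ^ 2 :=
      Finset.single_le_sum (f := fun l => (v i l) ^ 2) (fun _ _ => sq_nonneg _) (Finset.mem_univ l)
    have h4 : (v i l) ^ 2 ≤ 1 := h3.trans (hv i hi)
    exact abs_le_one_iff_mul_self_le_one.2 (by nlinarith)
  -- the rounding
  let κ := {l : Fin m // i0 ≤ l.val} × Bool
  let pos : κ → ℕ := fun q => q.1.1.val - i0
  let vv : ι → κ → ℝ := fun i q => if q.2 then v i q.1.1 else |v i q.1.1|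
  have hsub : ∀ g : Fin m → ℝ, ∑ l : {l : Fin m // i0 ≤ l.val}, g l.1 =
      ∑ l ∈ univ.filter (fun l : Fin m => i0 ≤ l.val), g l := by
    intro g
    exact (Finset.sum_subtype (univ.filter (fun l : Fin m => i0 ≤ l.val)) (by simp) g).symm
  have hnorm : ∀ i ∈ V, ∑ q : κ, (vv i q) ^ 2 ≤ 2 := by
    intro i hi
    have e : ∑ q : κ, (vv i q) ^ 2 = ∑ l : {l : Fin m // i0 ≤ l.val}, 2 * (v i l.1) ^ 2 := by
      rw [Fintype.sum_prod_type]
      apply Finset.sum_congr rfl
      intro l _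
      simp [vv, two_mul]
    rw [e, hsub (fun l => 2 * (v i l) ^ 2), ← Finset.mul_sum]
    have h3 : ∑ l ∈ univ.filter (fun l : Fin m => i0 ≤ l.val), (v i l) ^ 2 ≤
        ∑ l, (v i l) ^ 2 :=
      Finset.sum_le_sum_of_subset_of_nonneg (Finset.filter_subset _ _)
        (fun _ _ _ => sq_nonneg _)
    have h4 := hv i hi
    linarith
  have hpos : ∀ k : ℕ, (univ.filter (fun q : κ => pos q < k)).card ≤ 2 * k := by
    intro k
    have hmaps : ∀ q ∈ univ.filter (fun q : κ => pos q < k),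
        (pos q, q.2) ∈ (Finset.range k) ×ˢ (univ : Finset Bool) := by
      intro q hq
      simp only [Finset.mem_filter, Finset.mem_univ, true_and] at hq
      simp [hq]
    have hinj : Set.InjOn (fun q : κ => (pos q, q.2))
        (univ.filter (fun q : κ => pos q < k) : Finset κ) := by
      rintro ⟨⟨l, hl⟩, b⟩ _ ⟨⟨l', hl'⟩, b'⟩ _ h
      simp only [pos, Prod.mk.injEq] at h
      obtain ⟨ha, hb⟩ := h
      have : l = l' := Fin.ext (by omega)
      subst this
      subst hb
      rfl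
    have := Finset.card_le_card_of_injOn _ hmaps hinj
    rw [Finset.card_product, Finset.card_range, Finset.card_univ, Fintype.card_bool] at this
    omega
  obtain ⟨W, hWV, hW1, hW0, hWk, hWφ⟩ := h2 ι κ pos V vv (fun i => ∑ l, w l * v i l) x'
    hpos hnorm h01'
  refine ⟨W, hWV, ?_, ?_, ?_, ?_⟩
  · intro k
    have h3 := hWk (k - i0)
    refine le_trans (le_of_eq ?_) h3
    -- both sums
    have e1 : ∑ q ∈ univ.filter (fun q : κ => pos q < k - i0),
        (∑ i ∈ W, vv i q - ∑ i ∈ V, x' i * vv i q) ^ 2 =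
        ∑ q : κ, if pos q < k - i0 then
          (∑ i ∈ W, vv i q - ∑ i ∈ V, x' i * vv i q) ^ 2 else 0 := by
      rw [Finset.sum_filter]
    rw [e1, Fintype.sum_prod_type]
    obtain ⟨G, hG⟩ : ∃ G : Fin m → ℝ, ∀ l, G l = if l.val < k then
          ((∑ i ∈ W, v i l - ∑ i ∈ V, x i * v i l) ^ 2 +
           (∑ i ∈ W, |v i l| - ∑ i ∈ V, x i * |v i l|) ^ 2) else 0 := ⟨_, fun _ => rfl⟩
    have e2 : ∀ l : {l : Fin m // i0 ≤ l.val},
        ∑ b : Bool, (if pos (l, b) < k - i0 then
          (∑ i ∈ W, vv i (l, b) - ∑ i ∈ V, x' i * vv i (l, b)) ^ 2 else 0) = G l.1 := by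
      intro l
      have hl := l.2
      have hiff : (l.1.val - i0 < k - i0) ↔ l.1.val < k := by omega
      rw [Fintype.sum_bool, hG]
      simp only [pos, vv, if_true, hiff, Bool.false_eq_true, if_false]
      rw [← hfv, ← hfa]
      split_ifs with hk
      · rfl
      · simp
    rw [Finset.sum_congr rfl (fun l _ => e2 l), hsub G, ← Finset.filter_filter,
      Finset.sum_filter (fun l : Fin m => l.val < k)]
    exact Finset.sum_congr rfl (fun l _ => (hG l).symm)
  · have e1 : ∑ l, w l * (∑ i ∈ W, v i l - ∑ i ∈ V, x i * v i l) =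
        ∑ i ∈ W, (∑ l, w l * v i l) - ∑ i ∈ V, x' i * (∑ l, w l * v i l) := by
      have e2 : ∑ i ∈ W, (∑ l, w l * v i l) = ∑ l, w l * ∑ i ∈ W, v i l := by
        rw [Finset.sum_comm]
        simp_rw [Finset.mul_sum]
      have e3 : ∑ i ∈ V, x' i * (∑ l, w l * v i l) = ∑ l, w l * ∑ i ∈ V, x i * v i l := by
        simp_rw [← hfv, Finset.mul_sum]
        rw [Finset.sum_comm]
        apply Finset.sum_congr rfl
        intro l _
        apply Finset.sum_congr rfl
        intro i _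
        ring
      rw [e2, e3, ← Finset.sum_sub_distrib]
      apply Finset.sum_congr rfl
      intro l _
      ring
    rw [e1]
    linarith
  · intro l
    rw [← hfa]
    refine le_trans ?_ hcard'
    exact tA7_aux V W x' h01' hWV hW1 hW0 (fun i => |v i l|)
      (fun i hi => by rw [abs_abs]; exact hvabs i hi l)
  · intro l j
    rw [← hfd]
    refine le_trans ?_ hcard'
    refine tA7_aux V W x' h01' hWV hW1 hW0 (fun i => d j i * v i l) (fun i hi => ?_)
    rw [abs_mul]
    calc |d j i| * |v i l| ≤ 1 * 1 :=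
          mul_le_mul (hd j i hi) (hvabs i hi l) (abs_nonneg _) zero_le_one
      _ = 1 := one_mul 1

end Pool.Agent.H380R3.SZ
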