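import Pool.Agent.H380R3.SZ.Defs

/-!
Task B1: Auerbach basis of a zonotope (by helper379).
-/

set_option autoImplicit false

namespace Pool.Agent.H380R3.SZ

open Finset

noncomputable section

namespace B1

open Matrix

/-- the matrix of the points with the coefficients `D` -/
def GrM {m : ℕ} {ι : Type} [Fintype ι] (v : ι → Fin m → ℝ) (D : Fin m → ι → ℝ) :
    Matrix (Fin m) (Fin m) ℝ := (Matrix.of D) * (Matrix.of v)

theorem GrM_apply {m : ℕ} {ι : Type} [Fintype ι] (v : ι → Fin m → ℝ) (D : Fin m → ι → ℝ)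
    (p l : Fin m) : GrM v D p l = ∑ i, D p i * v i l := rfl

theorem continuous_det {m : ℕ} {ι : Type} [Fintype ι] (v : ι → Fin m → ℝ) :
    Continuous fun D : Fin m → ι → ℝ => |(GrM v D).det| := by
  apply Continuous.abs
  apply Continuous.matrix_det
  apply continuous_matrix
  intro p l
  simp only [GrM_apply]
  fun_prop

theorem exists_det_ne {m : ℕ} {ι : Type} [Fintype ι] (v : ι → Fin m → ℝ)
    (hv : ∀ w : Fin m → ℝ, (∀ i, ∑ l, w l * v i l = 0) → w = 0) :
    ∃ D : Fin m → ι → ℝ, (∀ p i, |D p i| ≤ 1) ∧ (GrM v D).det ≠ 0 := by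
  have h1 : (GrM v fun p i => v i p).det ≠ 0 := by
    intro h0
    obtain ⟨w, hw, hw0⟩ := Matrix.exists_mulVec_eq_zero_iff.2 h0
    apply hw
    apply hv
    have h2 : ∑ i, (∑ l, w l * v i l) ^ 2 = 0 := by
      have h3 : w ⬝ᵥ ((GrM v fun p i => v i p) *ᵥ w) = ∑ i, (∑ l, w l * v i l) ^ 2 := by
        simp only [dotProduct, mulVec, GrM_apply]
        calc ∑ p, w p * ∑ l, (∑ i, v i p * v i l) * w l
            = ∑ p, ∑ l, ∑ i, (w p * v i p) * (w l * v i l) := by
              refine Finset.sum_congr rfl fun p _ => ?_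
              rw [Finset.mul_sum]
              refine Finset.sum_congr rfl fun l _ => ?_
              rw [Finset.sum_mul, Finset.mul_sum]
              refine Finset.sum_congr rfl fun i _ => ?_
              ring
          _ = ∑ i, ∑ p, ∑ l, (w p * v i p) * (w l * v i l) := by
              rw [Finset.sum_congr rfl fun p _ => Finset.sum_comm, Finset.sum_comm]
          _ = ∑ i, (∑ l, w l * v i l) ^ 2 := by
              refine Finset.sum_congr rfl fun i _ => ?_
              rw [sq, Finset.sum_mul_sum]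
      rw [← h3, hw0, dotProduct_zero]
    intro i
    have h3 := (Finset.sum_eq_zero_iff_of_nonneg fun i _ => sq_nonneg _).1 h2 i (Finset.mem_univ i)
    exact pow_eq_zero_iff (two_ne_zero) |>.1 h3
  set c : ℝ := 1 / (1 + ∑ i, ∑ l, |v i l|) with hc
  have hs : 0 ≤ ∑ i, ∑ l, |v i l| :=
    Finset.sum_nonneg fun i _ => Finset.sum_nonneg fun l _ => abs_nonneg _
  have hc0 : 0 < c := by positivity
  refine ⟨fun p i => c * v i p, ?_, ?_⟩
  · intro p i
    rw [abs_mul, abs_of_pos hc0, hc, one_div, inv_mul_le_iff₀ (by positivity), mul_one]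
    have h2 : |v i p| ≤ ∑ l, |v i l| :=
      Finset.single_le_sum (f := fun l => |v i l|) (fun l _ => abs_nonneg _) (Finset.mem_univ p)
    have h3 : ∑ l, |v i l| ≤ ∑ i, ∑ l, |v i l| :=
      Finset.single_le_sum (f := fun i => ∑ l, |v i l|)
        (fun i _ => Finset.sum_nonneg fun l _ => abs_nonneg _) (Finset.mem_univ i)
    linarith
  · have h2 : GrM v (fun p i => c * v i p) = c • GrM v (fun p i => v i p) := by
      ext p l
      rw [Matrix.smul_apply, GrM_apply, GrM_apply, smul_eq_mul, Finset.mul_sum]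
      refine Finset.sum_congr rfl fun i _ => ?_
      ring
    rw [h2, Matrix.det_smul]
    exact mul_ne_zero (pow_ne_zero _ hc0.ne') h1

end B1

open B1 Matrix in
theorem tB1 : S_auer := by
  classical
  intro m ι _ v hv
  set K : Set (Fin m → ι → ℝ) := Set.pi Set.univ fun _ => Set.pi Set.univ fun _ => Set.Icc (-1) 1
    with hK
  have hKc : IsCompact K := isCompact_univ_pi fun _ => isCompact_univ_pi fun _ => isCompact_Icc
  have hKmem : ∀ D : Fin m → ι → ℝ, D ∈ K ↔ ∀ p i, |D p i| ≤ 1 := by
    intro D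
    simp only [hK, Set.mem_pi, Set.mem_univ, true_implies, Set.mem_Icc, abs_le]
  obtain ⟨D₀, hD₀, hdet₀⟩ := exists_det_ne v hv
  obtain ⟨D, hDK, hmax⟩ := hKc.exists_isMaxOn ⟨D₀, (hKmem D₀).2 hD₀⟩ (continuous_det v).continuousOn
  have hpos : 0 < |(GrM v D).det| :=
    lt_of_lt_of_le (abs_pos.2 hdet₀) (hmax ((hKmem D₀).2 hD₀))
  have hdet : (GrM v D).det ≠ 0 := abs_pos.1 hpos
  have hD := (hKmem D).1 hDK
  refine ⟨D, hD, ?_, ?_⟩
  · intro w hw
    apply Matrix.eq_zero_of_mulVec_eq_zero hdet
    funext p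
    have := hw p
    rw [Pi.zero_apply, ← this]
    simp only [mulVec, dotProduct, GrM_apply]
    exact Finset.sum_congr rfl fun l _ => mul_comm _ _
  · intro δ hδ
    set b : Fin m → ℝ := fun l => ∑ i, δ i * v i l with hb
    have hup : ∀ p, (GrM v D).updateRow p b = GrM v (Function.update D p δ) := by
      intro p
      ext q l
      rw [GrM_apply]
      by_cases hq : q = p
      · subst hq
        rw [Matrix.updateRow_self, Function.update_self]
      · rw [Matrix.updateRow_ne hq, Function.update_of_ne hq, GrM_apply]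
    refine ⟨fun p => Matrix.cramer (GrM v D)ᵀ b p / (GrM v D).det, ?_, ?_⟩
    · intro p
      beta_reduce
      rw [Matrix.cramer_transpose_apply, hup, abs_div, div_le_one hpos]
      apply hmax
      rw [hKmem]
      intro q i
      by_cases hq : q = p
      · subst hq
        rw [Function.update_self]
        exact hδ i
      · rw [Function.update_of_ne hq]
        exact hD q i
    · intro l
      have h1 := congrFun (Matrix.mulVec_cramer (GrM v D)ᵀ b) l
      rw [Matrix.det_transpose, Pi.smul_apply, smul_eq_mul] at h1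
      have h2 : ((GrM v D)ᵀ *ᵥ Matrix.cramer (GrM v D)ᵀ b) l =
          ∑ p, (∑ i, D p i * v i l) * Matrix.cramer (GrM v D)ᵀ b p := rfl
      rw [h2] at h1
      have h3 : ∑ p, Matrix.cramer (GrM v D)ᵀ b p / (GrM v D).det * ∑ i, D p i * v i l =
          (∑ p, (∑ i, D p i * v i l) * Matrix.cramer (GrM v D)ᵀ b p) / (GrM v D).det := by
        rw [Finset.sum_div]
        refine Finset.sum_congr rfl fun p _ => ?_
        ring
      rw [h3, h1, mul_div_cancel_left₀ _ hdet]

end

end Pool.Agent.H380R3.SZ
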