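import Pool.Agent.H380R3.SZ.Defs

set_option autoImplicit false

namespace Pool.Agent.H380R3.SZ

open Finset Matrix

theorem tB2 : S_spec := by
  intro m z hz
  set Z : Matrix (Fin m) (Fin m) ℝ := Matrix.of z with hZ
  have hB : (Zᵀ * Z).IsHermitian := by
    unfold Matrix.IsHermitian
    rw [Matrix.conjTranspose_eq_transpose_of_trivial, Matrix.transpose_mul,
      Matrix.transpose_transpose]
  set b := hB.eigenvectorBasis with hb
  set u0 : Fin m → Fin m → ℝ := fun j l => b j l with hu0
  -- orthonormality of the rows
  have horth : ∀ j k, ∑ l, u0 j l * u0 k l = if j = k then 1 else 0 := by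
    intro j k
    have h1 := orthonormal_iff_ite.mp b.orthonormal k j
    have h2 : (inner ℝ (b k) (b j) : ℝ) = ∑ l, u0 j l * u0 k l := by
      rw [PiLp.inner_apply]
      refine Finset.sum_congr rfl fun l _ => ?_
      simp [hu0]
    rw [← h2, h1]
    by_cases h : j = k
    · subst h; simp
    · rw [if_neg (fun h' => h h'.symm), if_neg h]
  -- eigenvector equation
  have heig : ∀ k l, ∑ l', (Zᵀ * Z) l l' * u0 k l' = hB.eigenvalues k * u0 k l := by
    intro k l
    have h1 := hB.mulVec_eigenvectorBasis k
    have h2 := congrFun h1 l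
    simpa [Matrix.mulVec, dotProduct] using h2
  have hquad : ∀ j k, ∑ p, (∑ l, z p l * u0 j l) * (∑ l, z p l * u0 k l)
      = if j = k then hB.eigenvalues k else 0 := by
    intro j k
    have h1 : ∑ p, (∑ l, z p l * u0 j l) * (∑ l, z p l * u0 k l)
        = ∑ l, u0 j l * ∑ l', (Zᵀ * Z) l l' * u0 k l' := by
      have e1 : ∀ p, (∑ l, z p l * u0 j l) * (∑ l, z p l * u0 k l)
          = ∑ l, ∑ l', u0 j l * (z p l * z p l' * u0 k l') := by
        intro p
        rw [Finset.sum_mul_sum]
        refine Finset.sum_congr rfl fun l _ => Finset.sum_congr rfl fun l' _ => ?_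
        ring
      simp only [e1]
      rw [Finset.sum_comm]
      refine Finset.sum_congr rfl fun l _ => ?_
      rw [Finset.sum_comm, Finset.mul_sum]
      refine Finset.sum_congr rfl fun l' _ => ?_
      rw [Matrix.mul_apply, Finset.sum_mul, Finset.mul_sum]
      refine Finset.sum_congr rfl fun p _ => ?_
      simp [hZ]
    rw [h1]
    simp only [heig]
    have h2 : ∑ l, u0 j l * (hB.eigenvalues k * u0 k l)
        = hB.eigenvalues k * ∑ l, u0 j l * u0 k l := by
      rw [Finset.mul_sum]
      refine Finset.sum_congr rfl fun l _ => ?_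
      ring
    rw [h2, horth j k]
    by_cases h : j = k
    · simp [h]
    · simp [h]
  have hpos : ∀ j, 0 < hB.eigenvalues j := by
    intro j
    have h1 := hquad j j
    rw [if_pos rfl] at h1
    have h2 : 0 ≤ hB.eigenvalues j := by
      rw [← h1]
      exact Finset.sum_nonneg fun p _ => mul_self_nonneg _
    rcases h2.lt_or_eq with h | h
    · exact h
    · exfalso
      rw [← h] at h1
      have h3 := (Finset.sum_eq_zero_iff_of_nonneg (fun p _ => mul_self_nonneg _)).mp h1
      have h4 : (fun l => u0 j l) = 0 := by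
        apply hz
        intro p
        have := mul_self_eq_zero.mp (h3 p (Finset.mem_univ p))
        rw [← this]
        refine Finset.sum_congr rfl fun l _ => ?_
        ring
      have h5 := horth j j
      rw [if_pos rfl] at h5
      have h6 : ∀ l, u0 j l = 0 := fun l => congrFun h4 l
      simp [h6] at h5
  -- columns
  have hcol : ∀ l l', ∑ j, u0 j l * u0 j l' = if l = l' then 1 else 0 := by
    have h1 : (Matrix.of u0) * (Matrix.of u0)ᵀ = 1 := by
      ext j k
      rw [Matrix.mul_apply, Matrix.one_apply]
      simpa using horth j k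
    have h2 : (Matrix.of u0)ᵀ * (Matrix.of u0) = 1 := mul_eq_one_comm.mp h1
    intro l l'
    have h3 := congrFun (congrFun h2 l) l'
    rw [Matrix.mul_apply, Matrix.one_apply] at h3
    simpa using h3
  set s0 : Fin m → ℝ := fun j => Real.sqrt (hB.eigenvalues j) with hs0
  set σ := Tuple.sort s0 with hσ
  refine ⟨fun j l => u0 (σ j) l, fun j => s0 (σ j), ?_, ?_, ?_, ?_, ?_⟩
  · intro j k
    rw [horth]
    simp
  · intro l l'
    rw [Equiv.sum_comp σ (fun j => u0 j l * u0 j l')]
    exact hcol l l'
  · intro j
    exact Real.sqrt_pos.mpr (hpos _)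
  · exact Tuple.monotone_sort s0
  · intro j k
    show ∑ p, (∑ l, z p l * u0 (σ j) l) * (∑ l, z p l * u0 (σ k) l) = _
    rw [hquad]
    by_cases h : j = k
    · subst h
      simp only [if_true]
      rw [hs0]
      exact (Real.sq_sqrt (hpos _).le).symm
    · rw [if_neg h, if_neg (fun h' => h (σ.injective h'))]

end Pool.Agent.H380R3.SZ
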