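import Pool.Agent.H380R3.SZ.Defs

set_option autoImplicit false

namespace Pool.Agent.H380R3.SZ

open Finset

/-- Cauchy-Schwarz for `ℓ¹` against `ℓ²` -/
theorem tB3_cs {m : ℕ} (f : Fin m → ℝ) (s : ℝ) (hs : 0 ≤ s) (h : ∑ p, f p ^ 2 = s ^ 2) :
    ∑ p, |f p| ≤ Real.sqrt m * s := by
  have h1 : (∑ p : Fin m, |f p|) ^ 2 ≤ (m : ℝ) * ∑ p, |f p| ^ 2 := by
    have := sq_sum_le_card_mul_sum_sq (s := (univ : Finset (Fin m))) (f := fun p => |f p|)
    simpa using this
  have h2 : ∑ p : Fin m, |f p| ^ 2 = s ^ 2 := by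
    rw [← h]; exact Finset.sum_congr rfl (fun p _ => sq_abs _)
  rw [h2] at h1
  have h3 : (Real.sqrt m * s) ^ 2 = m * s ^ 2 := by
    rw [mul_pow, Real.sq_sqrt (Nat.cast_nonneg m)]
  rw [← h3] at h1
  exact (pow_le_pow_iff_left₀ (Finset.sum_nonneg (fun p _ => abs_nonneg _)) (by positivity)
    two_ne_zero).1 h1

theorem tB3 (h1 : S_auer) (h2 : S_spec) : S_normal := by
  intro m n hm v hv hsum hspan
  classical
  have hm0 : (0 : ℝ) < m := by exact_mod_cast hm
  have hrm : 0 < Real.sqrt m := Real.sqrt_pos.2 hm0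
  have hrr : Real.sqrt m * Real.sqrt m = m := Real.mul_self_sqrt hm0.le
  obtain ⟨D, hD1, hD2, hD3⟩ := h1 m (Fin n) v hspan
  obtain ⟨u, s, hu1, hu2, hs0, hsm, hsp⟩ := h2 m (fun p l => ∑ i, D p i * v i l) hD2
  -- inner products `⟨z_p, u_j⟩`
  obtain ⟨c, hc⟩ : ∃ c : Fin m → Fin m → ℝ, ∀ p j, c p j = ∑ l, (∑ i, D p i * v i l) * u j l :=
    ⟨_, fun _ _ => rfl⟩
  -- the new vectors
  obtain ⟨w, hw⟩ : ∃ w : Fin n → Fin m → ℝ, ∀ i j, w i j = ∑ l, v i l * u j l :=
    ⟨_, fun _ _ => rfl⟩
  have hcw : ∀ p j, c p j = ∑ i, D p i * w i j := by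
    intro p j
    simp only [hc, hw]
    simp_rw [Finset.sum_mul, Finset.mul_sum]
    rw [Finset.sum_comm]
    exact Finset.sum_congr rfl (fun i _ => Finset.sum_congr rfl (fun l _ => by ring))
  have hcc : ∀ j k, ∑ p, c p j * c p k = if j = k then (s j) ^ 2 else 0 := by
    intro j k
    rw [← hsp j k]
    exact Finset.sum_congr rfl (fun p _ => by rw [hc, hc])
  have hcs : ∀ j, ∑ p, |c p j| ≤ Real.sqrt m * s j := by
    intro j
    apply tB3_cs _ _ (hs0 j).le
    have := hcc j j
    rw [if_pos rfl] at this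
    rw [← this]
    exact Finset.sum_congr rfl (fun p _ => by ring)
  have hpos : ∀ j, 0 < Real.sqrt m * s j := fun j => mul_pos hrm (hs0 j)
  refine ⟨{ v := w
            d := fun j i => ∑ p, c p j / (Real.sqrt m * s j) * D p i
            t := fun j => s j / Real.sqrt m
            hv := ?_
            hd := ?_
            ht := fun j => div_pos (hs0 j) hrm
            hmono := fun a b hab => div_le_div_of_nonneg_right (hsm hab) hrm.le
            hsum := ?_
            hN := ?_
            hT := ?_ }, u, hu1, hu2, fun i j => hw i j⟩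
  · intro i
    refine le_trans (le_of_eq ?_) (hv i)
    -- Parseval
    simp only [hw]
    have e1 : ∀ j, (∑ l, v i l * u j l) ^ 2 = ∑ l, ∑ l', v i l * v i l' * (u j l * u j l') := by
      intro j
      rw [sq, Finset.sum_mul_sum]
      exact Finset.sum_congr rfl (fun l _ => Finset.sum_congr rfl (fun l' _ => by ring))
    simp_rw [e1]
    rw [Finset.sum_comm]
    apply Finset.sum_congr rfl
    intro l _
    rw [Finset.sum_comm]
    have e2 : ∀ l', ∑ j, v i l * v i l' * (u j l * u j l') =
        v i l * v i l' * (if l = l' then 1 else 0) := by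
      intro l'
      rw [← Finset.mul_sum, hu2]
    simp_rw [e2]
    rw [Finset.sum_eq_single l]
    · rw [if_pos rfl]; ring
    · intro b _ hb
      rw [if_neg (Ne.symm hb), mul_zero]
    · intro hl; exact absurd (mem_univ l) hl
  · intro j i
    calc |∑ p, c p j / (Real.sqrt m * s j) * D p i|
        ≤ ∑ p, |c p j / (Real.sqrt m * s j) * D p i| := Finset.abs_sum_le_sum_abs _ _
      _ ≤ ∑ p, |c p j| / (Real.sqrt m * s j) := by
          apply Finset.sum_le_sum
          intro p _
          rw [abs_mul, abs_div, abs_of_pos (hpos j)]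
          have := hD1 p i
          have h0 : 0 ≤ |c p j| / (Real.sqrt m * s j) :=
            div_nonneg (abs_nonneg _) (hpos j).le
          nlinarith
      _ = (∑ p, |c p j|) / (Real.sqrt m * s j) := by rw [Finset.sum_div]
      _ ≤ 1 := by rw [div_le_one (hpos j)]; exact hcs j
  · intro l
    simp only [hw]
    rw [Finset.sum_comm]
    have : ∀ l', ∑ i, v i l' * u l l' = 0 := by
      intro l'
      rw [← Finset.sum_mul, hsum, zero_mul]
    simp_rw [this]
    exact Finset.sum_const_zero
  · intro l j
    have e1 : ∑ i, (∑ p, c p j / (Real.sqrt m * s j) * D p i) * w i l =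
        (∑ p, c p j * c p l) / (Real.sqrt m * s j) := by
      simp_rw [Finset.sum_mul]
      rw [Finset.sum_comm, Finset.sum_div]
      apply Finset.sum_congr rfl
      intro p _
      rw [hcw p l, Finset.mul_sum, Finset.sum_div]
      exact Finset.sum_congr rfl (fun i _ => by ring)
    rw [e1, hcc]
    by_cases hlj : l = j
    · subst hlj
      rw [if_pos rfl, if_pos rfl]
      have h3 := (hs0 l).ne'
      have h4 := hrm.ne'
      field_simp
    · rw [if_neg (fun h => hlj h.symm), if_neg hlj, zero_div]
  · intro l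
    -- signs
    obtain ⟨a, ha1, ha2⟩ := hD3 (fun i => SignType.sign (w i l)) (fun i => by
      rcases lt_trichotomy (w i l) 0 with h | h | h
      · simp [sign_neg h]
      · simp [h]
      · simp [sign_pos h])
    have e1 : ∑ i, |w i l| = ∑ p, a p * c p l := by
      have e2 : ∀ i, |w i l| = (SignType.sign (w i l) : ℝ) * w i l := fun i => by
        rw [sign_mul_self]
      have e3 : ∑ i, |w i l| = ∑ l', (∑ i, (SignType.sign (w i l) : ℝ) * v i l') * u l l' := by
        simp_rw [e2]
        simp_rw [Finset.sum_mul]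
        rw [Finset.sum_comm]
        apply Finset.sum_congr rfl
        intro i _
        simp only [hw]
        rw [Finset.mul_sum]
        exact Finset.sum_congr rfl (fun l' _ => by ring)
      rw [e3]
      simp_rw [ha2]
      simp only [hc]
      simp_rw [Finset.sum_mul, Finset.mul_sum]
      rw [Finset.sum_comm]
      apply Finset.sum_congr rfl
      intro p _
      apply Finset.sum_congr rfl
      intro l' _
      rw [Finset.sum_mul]
      exact Finset.sum_congr rfl (fun i _ => by ring)
    have e4 : ∑ p, a p * c p l ≤ ∑ p, |c p l| := by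
      apply Finset.sum_le_sum
      intro p _
      calc a p * c p l ≤ |a p * c p l| := le_abs_self _
        _ = |a p| * |c p l| := abs_mul _ _
        _ ≤ 1 * |c p l| := mul_le_mul_of_nonneg_right (ha1 p) (abs_nonneg _)
        _ = |c p l| := one_mul _
    have e5 : (m : ℝ) * (s l / Real.sqrt m) = Real.sqrt m * s l := by
      calc (m : ℝ) * (s l / Real.sqrt m) = (Real.sqrt m * Real.sqrt m) * (s l / Real.sqrt m) := by
            rw [hrr]
        _ = Real.sqrt m * s l := by
            have h4 := hrm.ne'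
            field_simp
    rw [e1, e5]
    exact e4.trans (hcs l)

end Pool.Agent.H380R3.SZ
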