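import Pool.Agent.H380R3.SZ.Defs

/-! Task C1 (helper835): basic facts on `a`, `J`, `i0`. -/

set_option autoImplicit false

namespace Pool.Agent.H380R3.SZ

open Finset

namespace TC1

theorem seg {m : ℕ} (P : Fin m → Prop) [DecidablePred P] (h : ∀ l l' : Fin m, l ≤ l' → P l' → P l)
    (l : Fin m) : l.val < (univ.filter P).card ↔ P l := by
  constructor
  · intro hl
    by_contra hP
    have : univ.filter P ⊆ Iio l := by
      intro x hx
      rw [mem_filter] at hx
      rw [mem_Iio]
      by_contra hxl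
      exact hP (h l x (not_lt.mp hxl) hx.2)
    have h2 := card_le_card this
    rw [Fin.card_Iio] at h2
    omega
  · intro hP
    have : Iic l ⊆ univ.filter P := by
      intro x hx
      rw [mem_Iic] at hx
      rw [mem_filter]
      exact ⟨mem_univ _, h x l hx hP⟩
    have h2 := card_le_card this
    rw [Fin.card_Iic] at h2
    omega

end TC1

open TC1

theorem tC1 : S_idx := by
  intro m n S hm
  have hm' : (0 : ℝ) < m := by exact_mod_cast hm
  have hL : 0 < Lam m := by unfold Lam; positivity
  have h1 : ∀ (k : ℕ) (l : Fin m), k < S.a l ↔ 2 ^ k * Lam m ≤ S.t l := by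
    intro k l
    have hne : {k : ℕ | S.t l < 2 ^ k * Lam m}.Nonempty := by
      obtain ⟨k, hk⟩ := pow_unbounded_of_one_lt (S.t l / Lam m) (one_lt_two : (1 : ℝ) < 2)
      refine ⟨k, ?_⟩
      rw [div_lt_iff₀ hL] at hk
      exact hk
    constructor
    · intro hk
      have := Nat.notMem_of_lt_sInf hk
      exact not_lt.mp this
    · intro hk
      by_contra hcon
      have h2 : S.a l ≤ k := not_lt.mp hcon
      have h3 : S.t l < 2 ^ (S.a l) * Lam m := Nat.sInf_mem hne
      have h4 : (2 : ℝ) ^ (S.a l) ≤ 2 ^ k := pow_le_pow_right₀ (by norm_num) h2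
      have h5 := mul_le_mul_of_nonneg_right h4 hL.le
      linarith
  have h2 : ∀ l l' : Fin m, l ≤ l' → S.a l ≤ S.a l' := by
    intro l l' hl
    by_contra hcon
    have h3 := (h1 (S.a l') l).1 (not_le.mp hcon)
    have h4 := (h1 (S.a l') l').2 (h3.trans (S.hmono hl))
    omega
  have h3 : ∀ (k : ℕ) (l : Fin m), l.val < S.J k ↔ S.a l ≤ k := by
    intro k l
    exact seg (fun l => S.a l ≤ k) (fun l l' hl h => (h2 l l' hl).trans h) l
  have h4 : ∀ (k : ℕ) (l : Fin m), l.val < S.i0 k ↔ S.a l + LL m ≤ k := by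
    intro k l
    refine seg (fun l => S.a l + LL m ≤ k) (fun l l' hl h => ?_) l
    have := h2 l l' hl
    omega
  refine ⟨h1, h2, h3, h4, fun k => ⟨?_, ?_, ?_, ?_⟩⟩
  · refine card_le_card ?_
    intro x hx
    rw [mem_filter] at hx ⊢
    exact ⟨mem_univ _, by omega⟩
  · have := card_le_univ (univ.filter (fun l : Fin m => S.a l ≤ k))
    rwa [Fintype.card_fin] at this
  · refine card_le_card ?_
    intro x hx
    rw [mem_filter] at hx ⊢
    exact ⟨mem_univ _, by omega⟩
  · unfold Sys.X
    rw [sum_range_succ]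
    omega

end Pool.Agent.H380R3.SZ
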