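import Pool.Agent.H380R3.SZ.Defs

set_option autoImplicit false

namespace Pool.Agent.H380R3.SZ

open Finset

theorem tC2 (_h1 : S_idx) : S_win := by
  classical
  intro m n S k
  unfold Sys.X
  have h1 : ∀ r, S.J r - S.i0 r ≤
      (univ.filter (fun l : Fin m => S.a l ≤ r ∧ r < S.a l + LL m)).card := by
    intro r
    rw [Nat.sub_le_iff_le_add]
    unfold Sys.J Sys.i0
    refine le_trans (Finset.card_le_card ?_) (Finset.card_union_le _ _)
    intro l hl
    rw [mem_filter] at hl
    rw [mem_union, mem_filter, mem_filter]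
    by_cases h : r < S.a l + LL m
    · exact Or.inl ⟨mem_univ _, hl.2, h⟩
    · exact Or.inr ⟨mem_univ _, not_lt.1 h⟩
  calc ∑ r ∈ range k, (S.J r - S.i0 r)
      ≤ ∑ r ∈ range k, (univ.filter (fun l : Fin m => S.a l ≤ r ∧ r < S.a l + LL m)).card :=
        Finset.sum_le_sum fun r _ => h1 r
    _ = ∑ r ∈ range k, ∑ l : Fin m, if S.a l ≤ r ∧ r < S.a l + LL m then 1 else 0 := by
        refine Finset.sum_congr rfl fun r _ => ?_
        rw [Finset.card_filter]
    _ = ∑ l : Fin m, ∑ r ∈ range k, if S.a l ≤ r ∧ r < S.a l + LL m then 1 else 0 :=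
        Finset.sum_comm
    _ ≤ ∑ l : Fin m, LL m := by
        refine Finset.sum_le_sum fun l _ => ?_
        rw [← Finset.card_filter]
        calc ((range k).filter (fun r => S.a l ≤ r ∧ r < S.a l + LL m)).card
            ≤ (Finset.Ico (S.a l) (S.a l + LL m)).card := by
              apply Finset.card_le_card
              intro r hr
              rw [mem_filter] at hr
              rw [Finset.mem_Ico]
              exact hr.2
          _ = LL m := by rw [Nat.card_Ico]; omega
    _ = LL m * m := by
        rw [Finset.sum_const, Finset.card_univ, Fintype.card_fin, smul_eq_mul, mul_comm]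

end Pool.Agent.H380R3.SZ
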