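import Pool.Agent.H380R3.SZ.Defs

set_option autoImplicit false

namespace Pool.Agent.H380R3.SZ

open Finset

theorem tC3_aux (h1 : S_idx) (h2 : S_num) (m n : ℕ) (S : Sys m n) (k : ℕ) (hm : 1 ≤ m) :
    S.Th k ≤ 1 / (512 * (m : ℝ) ^ 3) := by
  obtain ⟨ha, -⟩ := h1 m n S hm
  obtain ⟨-, -, hb, hb0, -, hL, -⟩ := h2 m hm
  have hm0 : (0 : ℝ) < m := by exact_mod_cast hm
  have hone : ∀ l : Fin m, ∑ r ∈ range k, (if r < S.a l then (2 : ℝ) ^ r / S.t l else 0) ≤
      2 / Lam m := by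
    intro l
    have ht := S.ht l
    rw [← Finset.sum_filter]
    have s1 : ∑ r ∈ (range k).filter (fun r => r < S.a l), (2 : ℝ) ^ r / S.t l ≤
        ∑ r ∈ range (S.a l), (2 : ℝ) ^ r / S.t l := by
      apply Finset.sum_le_sum_of_subset_of_nonneg
      · intro r hr
        rw [Finset.mem_filter] at hr
        exact Finset.mem_range.2 hr.2
      · intro r _ _
        positivity
    refine s1.trans ?_
    rw [← Finset.sum_div, geom_sum_eq (by norm_num)]
    rcases Nat.eq_zero_or_pos (S.a l) with h0 | h0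
    · rw [h0]
      simp
      positivity
    · obtain ⟨b, hb'⟩ : ∃ b, S.a l = b + 1 := ⟨S.a l - 1, by omega⟩
      have := (ha b l).1 (by omega)
      rw [hb', div_le_div_iff₀ ht hL]
      have e : ((2 : ℝ) ^ (b + 1) - 1) / (2 - 1) = 2 * 2 ^ b - 1 := by
        rw [pow_succ]; ring
      rw [e]
      nlinarith
  have hTh : S.Th k ≤ 2 * b0 m * (m * (2 / Lam m)) := by
    unfold Sys.Th Sys.th
    rw [← Finset.mul_sum]
    apply mul_le_mul_of_nonneg_left _ (by positivity)
    have e : ∑ r ∈ range k, ∑ l ∈ univ.filter (fun l : Fin m => r < S.a l), (2 : ℝ) ^ r / S.t l =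
        ∑ l : Fin m, ∑ r ∈ range k, (if r < S.a l then (2 : ℝ) ^ r / S.t l else 0) := by
      rw [Finset.sum_comm]
      refine Finset.sum_congr rfl fun r _ => ?_
      rw [Finset.sum_filter]
    rw [e]
    calc _ ≤ ∑ l : Fin m, 2 / Lam m := Finset.sum_le_sum fun l _ => hone l
      _ = m * (2 / Lam m) := by simp
  refine hTh.trans ?_
  have hLv : Lam m = 2 ^ 15 * (m : ℝ) ^ 5 := rfl
  have e : 2 * b0 m * (m * (2 / Lam m)) = 4 * m * b0 m / Lam m := by ring
  rw [e, div_le_div_iff₀ hL (by positivity), hLv]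
  have h3 : 0 ≤ 4 * (m : ℝ) * (512 * (m : ℝ) ^ 3) := by positivity
  have h4 := mul_le_mul_of_nonneg_left hb h3
  nlinarith

theorem tC3 (h1 : S_idx) (h2 : S_num) : S_th := by
  intro m n S k hm
  obtain ⟨-, -, hb, hb0, -, hL, -⟩ := h2 m hm
  have hth : ∀ r, 0 ≤ S.th r := by
    intro r
    unfold Sys.th
    apply mul_nonneg (by positivity)
    apply Finset.sum_nonneg
    intro l _
    have := S.ht l
    positivity
  have hTh : ∀ r, 0 ≤ S.Th r := fun r => Finset.sum_nonneg fun i _ => hth i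
  have hs : S.Th (k + 1) = S.Th k + S.th k := by
    unfold Sys.Th
    rw [Finset.sum_range_succ]
  refine ⟨hth k, hTh k, hs, tC3_aux h1 h2 m n S k hm, ?_⟩
  have h := tC3_aux h1 h2 m n S (k + 1) hm
  have := hTh k
  linarith

end Pool.Agent.H380R3.SZ
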