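import Pool.Agent.H380R3.SZ.Defs

/-! C5: diagonally dominant linear system -/

set_option autoImplicit false

namespace Pool.Agent.H380R3.SZ

open Finset

noncomputable section

lemma tC5_aux (m : ℕ) (A : Finset (Fin m)) (N : Fin m → Fin m → ℝ) (w y : Fin m → ℝ)
    (hw : ∀ l ∈ A, 0 < w l)
    (hN : ∀ l ∈ A, ∀ j ∈ A, |N l j - (if l = j then w l else 0)| ≤ w l / (2 * m)) :
    ∑ l ∈ A, |y l| ≤ 2 * ∑ l ∈ A, |(∑ j ∈ A, N l j * y j) / w l| := by
  have h1 : ∀ l ∈ A, |y l| ≤ |(∑ j ∈ A, N l j * y j) / w l| + 1 / (2 * m) * ∑ j ∈ A, |y j| := by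
    intro l hl
    have hwl := hw l hl
    have e1 : y l = (∑ j ∈ A, N l j * y j) / w l -
        (∑ j ∈ A, (N l j - (if l = j then w l else 0)) * y j) / w l := by
      have e2 : ∑ j ∈ A, (N l j - (if l = j then w l else 0)) * y j =
          ∑ j ∈ A, N l j * y j - w l * y l := by
        simp only [sub_mul, Finset.sum_sub_distrib, ite_mul, zero_mul]
        rw [Finset.sum_ite_eq, if_pos hl]
      rw [e2]
      field_simp
      ring
    have e3 : |(∑ j ∈ A, (N l j - (if l = j then w l else 0)) * y j) / w l| ≤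
        1 / (2 * m) * ∑ j ∈ A, |y j| := by
      rw [abs_div, abs_of_pos hwl, div_le_iff₀ hwl]
      calc |∑ j ∈ A, (N l j - (if l = j then w l else 0)) * y j|
          ≤ ∑ j ∈ A, |(N l j - (if l = j then w l else 0)) * y j| := Finset.abs_sum_le_sum_abs _ _
        _ ≤ ∑ j ∈ A, w l / (2 * m) * |y j| := by
            refine Finset.sum_le_sum fun j hj => ?_
            rw [abs_mul]
            exact mul_le_mul_of_nonneg_right (hN l hl j hj) (abs_nonneg _)
        _ = 1 / (2 * m) * (∑ j ∈ A, |y j|) * w l := by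
            rw [← Finset.mul_sum]; ring
    calc |y l| = |(∑ j ∈ A, N l j * y j) / w l -
        (∑ j ∈ A, (N l j - (if l = j then w l else 0)) * y j) / w l| := by rw [← e1]
      _ ≤ |(∑ j ∈ A, N l j * y j) / w l| +
        |(∑ j ∈ A, (N l j - (if l = j then w l else 0)) * y j) / w l| := abs_sub _ _
      _ ≤ _ := by linarith
  have h2 := Finset.sum_le_sum h1
  rw [Finset.sum_add_distrib, Finset.sum_const, nsmul_eq_mul] at h2
  have hS : 0 ≤ ∑ j ∈ A, |y j| := Finset.sum_nonneg fun _ _ => abs_nonneg _
  have h3 : (A.card : ℝ) * (1 / (2 * m) * ∑ j ∈ A, |y j|) ≤ 1 / 2 * ∑ j ∈ A, |y j| := by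
    rw [← mul_assoc]
    refine mul_le_mul_of_nonneg_right ?_ hS
    rcases Nat.eq_zero_or_pos m with hm | hm
    · subst hm
      simp
    · have hm' : (0 : ℝ) < m := by exact_mod_cast hm
      have hc : (A.card : ℝ) ≤ m := by
        have := Finset.card_le_univ A
        rw [Fintype.card_fin] at this
        exact_mod_cast this
      rw [mul_one_div, div_le_div_iff₀ (by positivity) (by norm_num)]
      linarith
  linarith

theorem tC5 : S_solve := by
  intro m A N w c b hw hc hN
  classical
  obtain ⟨L, hL⟩ : ∃ L : (Fin m → ℝ) →ₗ[ℝ] (Fin m → ℝ), ∀ y l, L y l =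
      if l ∈ A then (∑ j ∈ A, N l j * y j) / w l else y l := by
    refine ⟨{ toFun := fun y l => if l ∈ A then (∑ j ∈ A, N l j * y j) / w l else y l
              map_add' := ?_, map_smul' := ?_ }, fun y l => rfl⟩
    · intro y z
      funext l
      simp only [Pi.add_apply]
      split_ifs
      · rw [← add_div, ← Finset.sum_add_distrib]
        congr 1
        exact Finset.sum_congr rfl fun j _ => by ring
      · rfl
    · intro a y
      funext l
      simp only [Pi.smul_apply, smul_eq_mul, RingHom.id_apply]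
      split_ifs
      · rw [← mul_div_assoc, Finset.mul_sum]
        congr 1
        exact Finset.sum_congr rfl fun j _ => by ring
      · rfl
  have hinj : Function.Injective L := by
    rw [← LinearMap.ker_eq_bot, LinearMap.ker_eq_bot']
    intro y hy
    have h0 : ∀ l, L y l = 0 := fun l => by rw [hy]; rfl
    have h1 := tC5_aux m A N w y hw hN
    have h2 : ∑ l ∈ A, |(∑ j ∈ A, N l j * y j) / w l| = 0 := by
      refine Finset.sum_eq_zero fun l hl => ?_
      have := h0 l
      rw [hL, if_pos hl] at this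
      rw [this, abs_zero]
    rw [h2, mul_zero] at h1
    have h3 : ∀ l ∈ A, |y l| = 0 :=
      (Finset.sum_eq_zero_iff_of_nonneg fun _ _ => abs_nonneg _).mp
        (le_antisymm h1 (Finset.sum_nonneg fun _ _ => abs_nonneg _))
    funext l
    by_cases hl : l ∈ A
    · exact abs_eq_zero.mp (h3 l hl)
    · have := h0 l
      rw [hL, if_neg hl] at this
      exact this
  have hsurj : Function.Surjective L := LinearMap.injective_iff_surjective.mp hinj
  obtain ⟨y, hy⟩ := hsurj fun l => if l ∈ A then -(c l) / w l else 0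
  have hy' : ∀ l, (if l ∈ A then (∑ j ∈ A, N l j * y j) / w l else y l) =
      if l ∈ A then -(c l) / w l else 0 := fun l => by rw [← hL, hy]
  have hout : ∀ j, j ∉ A → y j = 0 := by
    intro j hj
    have := hy' j
    rwa [if_neg hj, if_neg hj] at this
  have hsum : ∀ (g : Fin m → ℝ), (∀ j, j ∉ A → g j = 0) → ∑ j, g j = ∑ j ∈ A, g j := by
    intro g hg
    exact (Finset.sum_subset (Finset.subset_univ A) fun j _ hj => hg j hj).symm
  refine ⟨y, hout, ?_, ?_⟩
  · intro l hl
    rw [hsum (fun j => N l j * y j) (fun j hj => by rw [hout j hj, mul_zero])]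
    have := hy' l
    rw [if_pos hl, if_pos hl, div_left_inj' (hw l hl).ne'] at this
    exact this
  · rw [hsum (fun j => |y j|) (fun j hj => by rw [hout j hj, abs_zero])]
    have h1 := tC5_aux m A N w y hw hN
    have h2 : ∑ l ∈ A, |(∑ j ∈ A, N l j * y j) / w l| ≤ ∑ l ∈ A, b * (1 / w l) := by
      refine Finset.sum_le_sum fun l hl => ?_
      have := hy' l
      rw [if_pos hl, if_pos hl] at this
      have hwl := hw l hl
      rw [this, abs_div, abs_neg, abs_of_pos hwl, mul_one_div]
      exact div_le_div_of_nonneg_right (hc l hl) hwl.le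
    rw [← Finset.mul_sum] at h2
    linarith

end

end Pool.Agent.H380R3.SZ
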