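import Pool.Agent.H380R3.SZ.Defs

set_option autoImplicit false

namespace Pool.Agent.H380R3.SZ

open Finset

theorem tD1 (h1 : S_idx) (h2 : S_th) (h3 : S_num) (h4 : S_solve) : S_steer := by
  classical
  intro m n S k V c hm hN hc
  obtain ⟨hidx, -, -, -, -⟩ := h1 m n S hm
  obtain ⟨-, hTh0, -, hTh, -⟩ := h2 m n S k hm
  obtain ⟨hN1a, hN1b, -, hb0, -, hLam, -, -, hDs, -, hw, -⟩ := h3 m hm
  have hmR : (1 : ℝ) ≤ (m : ℝ) := by exact_mod_cast hm
  have hm0 : (0 : ℝ) < (m : ℝ) := by linarith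
  have hp : (0 : ℝ) < 2 ^ k := by positivity
  set A : Finset (Fin m) := univ.filter (fun l : Fin m => k < S.a l) with hA
  have hmem : ∀ l, l ∈ A ↔ k < S.a l := by intro l; simp [hA]
  have hbound : ∀ (u : ℝ), 0 ≤ u → 4 * (m : ℝ) * S.Th k * u ≤
      4 * (m : ℝ) * (1 / (512 * (m : ℝ) ^ 3)) * u := by
    intro u hu
    have h5 : 4 * (m : ℝ) * S.Th k ≤ 4 * (m : ℝ) * (1 / (512 * (m : ℝ) ^ 3)) := by
      apply mul_le_mul_of_nonneg_left hTh; positivity
    exact mul_le_mul_of_nonneg_right h5 hu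
  obtain ⟨y, hy0, hy1, hy2⟩ := h4 m A (S.NN V) (fun l => S.t l / 2 ^ k) c (b0 m)
    (by intro l _; exact div_pos (S.ht l) hp)
    (by intro l hl; exact hc l ((hmem l).1 hl))
    (by
      intro l hl j _
      have h5 := hN l j
      have h6 : Lam m ≤ S.t l / 2 ^ k := by
        rw [le_div_iff₀ hp]
        have := (hidx k l).1 ((hmem l).1 hl)
        linarith
      have h7 := hw _ h6
      have h8 := hbound (S.t l / 2 ^ k) (by linarith)
      calc |S.NN V l j - (if l = j then S.t l / 2 ^ k else 0)|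
          ≤ 4 * m * S.Th k * (S.t l / 2 ^ k) + 3 * N1 m := h5
        _ ≤ 4 * (m : ℝ) * (1 / (512 * (m : ℝ) ^ 3)) * (S.t l / 2 ^ k) + 3 * N1 m := by linarith
        _ ≤ _ := h7)
  have hth : ∑ j, |y j| ≤ S.th k := by
    refine hy2.trans (le_of_eq ?_)
    unfold Sys.th
    congr 1
    apply sum_congr rfl
    intro l _
    have := S.ht l
    field_simp
  refine ⟨y, hth, fun l hl => hy1 l ((hmem l).2 hl), ?_⟩
  intro l hl
  have h9 : ∀ j, |S.NN V l j * y j| ≤ |y j| * Ds m := by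
    intro j
    by_cases hj : j ∈ A
    · have hne : l ≠ j := by
        rintro rfl
        have := (hmem l).1 hj
        omega
      have h5 := hN l j
      rw [if_neg hne, sub_zero] at h5
      have h6 : S.t l / 2 ^ k ≤ Lam m := by
        rw [div_le_iff₀ hp]
        by_contra hcon
        push Not at hcon
        have := (hidx k l).2 (by linarith)
        omega
      have h8 := hbound (S.t l / 2 ^ k) (div_pos (S.ht l) hp).le
      have h10 : 4 * (m : ℝ) * (1 / (512 * (m : ℝ) ^ 3)) * (S.t l / 2 ^ k) ≤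
          4 * (m : ℝ) * (1 / (512 * (m : ℝ) ^ 3)) * Lam m := by
        apply mul_le_mul_of_nonneg_left h6; positivity
      have h11 : |S.NN V l j| ≤ Ds m := by linarith
      rw [abs_mul, mul_comm]
      exact mul_le_mul_of_nonneg_left h11 (abs_nonneg _)
    · rw [hy0 j hj]; simp
  calc |∑ j, S.NN V l j * y j| ≤ ∑ j, |S.NN V l j * y j| := abs_sum_le_sum_abs _ _
    _ ≤ ∑ j, |y j| * Ds m := sum_le_sum (fun j _ => h9 j)
    _ = (∑ j, |y j|) * Ds m := by rw [sum_mul]
    _ ≤ S.th k * Ds m := by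
        apply mul_le_mul_of_nonneg_right hth
        have : 0 ≤ 4 * (m : ℝ) * (1 / (512 * (m : ℝ) ^ 3)) * Lam m := by positivity
        linarith

end Pool.Agent.H380R3.SZ
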