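import Pool.Agent.H380R3.SZ.Defs

/-! (D10) the root (helper617) -/

set_option autoImplicit false

namespace Pool.Agent.H380R3.SZ

open Finset

theorem tD10 (h1 : S_idx) (h2 : S_num) : S_root := by
  intro m n S hm
  obtain ⟨n1, n2, n3, n4, n5, n6, n7, n8, n9, n10, n11, n12⟩ := h2 m hm
  obtain ⟨i1, i2, i3, i4, i5⟩ := h1 m n S hm
  have hTh : S.Th 0 = 0 := by
    unfold Sys.Th
    rw [range_zero, sum_empty]
  have hX : S.X 0 = 0 := by
    unfold Sys.X
    rw [range_zero, sum_empty]
  have hTT : ∀ l, S.TT univ l ≤ m * S.t l := fun l => S.hT l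
  have hTT0 : ∀ l, 0 ≤ S.TT univ l := fun l => sum_nonneg (fun i _ => abs_nonneg _)
  have hN1 : 0 ≤ N1 m := by linarith
  constructor
  · intro l
    rw [S.hsum l]
    simp
  · intro l
    rw [hTh, pow_zero, div_one]
    have := hTT l
    linarith
  · intro l j
    have h3 : S.NN univ l j = if l = j then S.t j else 0 := S.hN l j
    rw [h3, hTh, pow_zero, div_one]
    by_cases hlj : l = j
    · rw [if_pos hlj, if_pos hlj, hlj, sub_self, abs_zero]
      linarith
    · rw [if_neg hlj, if_neg hlj, sub_self, abs_zero]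
      linarith
  · refine ⟨fun l _ => ⟨rfl, ?_⟩, fun l _ _ => ?_⟩
    · simp only [Pi.zero_apply, abs_zero]
      exact n4.le
    · simp only [Pi.zero_apply, sub_self, abs_zero]
      rw [hTh, zero_mul]
  · refine ⟨fun l _ => ⟨rfl, ?_⟩, fun l _ _ => ?_⟩
    · simp only [Pi.zero_apply, abs_zero]
      exact n4.le
    · simp only [Pi.zero_apply, sub_self, abs_zero]
      rw [hTh, zero_mul]
  · intro i _ _
    have h4 : ∑ l ∈ univ.filter (fun l : Fin m => l.val < i), ((0 : Fin m → ℝ) l) ^ 2 = 0 :=
      sum_eq_zero (fun l _ => by simp)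
    rw [h4]
    positivity
  · intro i _ _
    have h4 : ∑ l ∈ univ.filter (fun l : Fin m => l.val < i), ((0 : Fin m → ℝ) l) ^ 2 = 0 :=
      sum_eq_zero (fun l _ => by simp)
    rw [h4]
    positivity
  · refine ⟨fun l => le_refl _, ?_, ?_⟩
    · intro l hl _
      have h5 : S.a l = 0 := Nat.le_zero.1 hl
      have h6 : ¬ (0 < S.a l) := by omega
      rw [i1 0 l, pow_zero, one_mul, not_le] at h6
      rw [h5, Nat.sub_zero, pow_zero, div_one]
      simp only [Pi.zero_apply, mul_zero, add_zero]
      have hmm : (0 : ℝ) ≤ m := Nat.cast_nonneg m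
      have h7 : (m : ℝ) * S.t l ≤ m * Lam m := mul_le_mul_of_nonneg_left h6.le hmm
      have h8 : S.TT univ l ≤ DD m := by
        have h9 := hTT l
        have h10 : 0 ≤ (m : ℝ) * Lam m := mul_nonneg hmm n6.le
        unfold DD
        linarith
      exact pow_le_pow_left₀ (hTT0 l) h8 2
    · rw [hX]
      simp
  · intro l hl
    exfalso
    have h11 : 0 < LL m := by
      unfold LL
      omega
    omega

end Pool.Agent.H380R3.SZ
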