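import Pool.Agent.H380R3.SZ.Defs

set_option autoImplicit false

namespace Pool.Agent.H380R3.SZ

open Finset

noncomputable section

theorem tD11 (h1 : S_win) : S_leaf := by
  intro m n S k V P P' A A' G hm hinv hfro W hW
  have hF : ∀ l, (P l + ∑ i ∈ W, S.v i l) ^ 2 ≤ 2 * (A l) ^ 2 + 8 + 12 * G l := by
    intro l
    have h := (hinv.F l (hfro l) W hW).1
    nlinarith [sq_nonneg (P l + ∑ i ∈ W, S.v i l - 2 * A l)]
  have hJ : S.J k ≤ m := by
    unfold Sys.J
    exact (card_filter_le _ _).trans (by simp)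
  have hA : ∑ l, (A l) ^ 2 ≤ 256 * ((m : ℝ) + S.X k) := by
    have h := hinv.Sh m hJ le_rfl
    have h2 : (univ.filter (fun l : Fin m => l.val < m)) = univ := by
      ext l
      simp
    rwa [h2] at h
  have hG := hinv.Gg.2.2
  have hX : (S.X k : ℝ) ≤ (LL m : ℝ) * m := by
    exact_mod_cast h1 m n S k
  have hL : (34 : ℝ) ≤ (LL m : ℝ) := by
    have : 34 ≤ LL m := by unfold LL; omega
    exact_mod_cast this
  have hm0 : (0 : ℝ) ≤ (m : ℝ) := Nat.cast_nonneg m
  calc ∑ l, (P l + ∑ i ∈ W, S.v i l) ^ 2 ≤ ∑ l, (2 * (A l) ^ 2 + 8 + 12 * G l) :=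
        Finset.sum_le_sum fun l _ => hF l
    _ = 2 * ∑ l, (A l) ^ 2 + 8 * m + 12 * ∑ l, G l := by
        rw [sum_add_distrib, sum_add_distrib, ← mul_sum, ← mul_sum, sum_const, card_univ,
          Fintype.card_fin, nsmul_eq_mul]
        ring
    _ ≤ 2 * (256 * ((m : ℝ) + S.X k)) + 8 * m + 12 * (256 * (S.X k : ℝ)) := by
        linarith
    _ ≤ 4104 * LL m * m := by
        nlinarith [mul_nonneg (by linarith : (0 : ℝ) ≤ (LL m : ℝ) - 34) hm0]

end

end Pool.Agent.H380R3.SZ
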