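import Pool.Agent.H380R3.SZ.Defs

set_option autoImplicit false

namespace Pool.Agent.H380R3.SZ

open Finset

theorem tD2 (h1 : S_steer) (h2 : S_rnd2) (h3 : S_th) : S_split := by
  intro m n S k V c w hm hN hc
  obtain ⟨y, hy1, hy2, hy3⟩ := h1 m n S k V c hm hN hc
  obtain ⟨hth0, -, -, -, hth⟩ := h3 m n S k hm
  have hm1 : (1 : ℝ) ≤ m := by exact_mod_cast hm
  have hth2 : S.th k ≤ 1 / 2 := by
    refine hth.trans ?_
    have : (1 : ℝ) ≤ (m : ℝ) ^ 3 := one_le_pow₀ hm1
    rw [div_le_div_iff₀ (by positivity) (by norm_num)]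
    nlinarith
  -- the deviation from `1/2`
  set q : Fin n → ℝ := fun i => ∑ j, y j * S.d j i with hq
  have hqb : ∀ i, |q i| ≤ S.th k := by
    intro i
    refine (Finset.abs_sum_le_sum_abs _ _).trans (le_trans ?_ hy1)
    refine Finset.sum_le_sum fun j _ => ?_
    rw [abs_mul]
    calc |y j| * |S.d j i| ≤ |y j| * 1 := by
          gcongr
          exact S.hd j i
      _ = |y j| := mul_one _
  have hqb' : ∀ i, -S.th k ≤ q i ∧ q i ≤ S.th k := fun i => abs_le.mp (hqb i)
  set x : Fin n → ℝ := fun i => 1 / 2 + q i with hx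
  have hx01 : In01 V x := by
    intro i _
    obtain ⟨h4, h5⟩ := hqb' i
    simp only [hx]
    constructor <;> linarith
  obtain ⟨W, hWV, hflag, horth, hg, hNd⟩ := h2 (Fin n) m (S.i0 k) V S.v S.d w x
    (fun i _ => S.hv i) (fun j i _ => S.hd j i) hx01
  -- the mean value
  have hqv : ∀ l, ∑ i ∈ V, q i * S.v i l = ∑ j, S.NN V l j * y j := by
    intro l
    simp only [hq, Sys.NN, Finset.sum_mul]
    rw [Finset.sum_comm]
    refine Finset.sum_congr rfl fun j _ => ?_
    refine Finset.sum_congr rfl fun i _ => ?_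
    ring
  have hmean : ∀ l, ∑ i ∈ V, x i * S.v i l = (∑ i ∈ V, S.v i l) / 2 + ∑ j, S.NN V l j * y j := by
    intro l
    rw [← hqv l, Finset.sum_div, ← Finset.sum_add_distrib]
    refine Finset.sum_congr rfl fun i _ => ?_
    simp only [hx]
    ring
  have hsd : ∀ f : Fin n → ℝ, ∑ i ∈ V \ W, f i = ∑ i ∈ V, f i - ∑ i ∈ W, f i := by
    intro f
    rw [← Finset.sum_sdiff hWV]
    ring
  have hqd : ∀ l j, |∑ i ∈ V, q i * (S.d j i * S.v i l)| ≤ S.th k * S.TT V l := by
    intro l j
    refine (Finset.abs_sum_le_sum_abs _ _).trans ?_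
    unfold Sys.TT
    rw [Finset.mul_sum]
    refine Finset.sum_le_sum fun i _ => ?_
    rw [abs_mul, abs_mul]
    calc |q i| * (|S.d j i| * |S.v i l|) ≤ S.th k * (1 * |S.v i l|) := by
          gcongr
          · exact hqb i
          · exact S.hd j i
      _ = S.th k * |S.v i l| := by rw [one_mul]
  have hNN : ∀ l j, |S.NN W l j - S.NN V l j / 2| ≤ S.th k * S.TT V l + N1 m := by
    intro l j
    have e1 : S.NN W l j - S.NN V l j / 2 =
        ((∑ i ∈ W, S.d j i * S.v i l) - ∑ i ∈ V, x i * (S.d j i * S.v i l)) +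
          ∑ i ∈ V, q i * (S.d j i * S.v i l) := by
      have e2 : ∑ i ∈ V, x i * (S.d j i * S.v i l) =
          S.NN V l j / 2 + ∑ i ∈ V, q i * (S.d j i * S.v i l) := by
        unfold Sys.NN
        rw [Finset.sum_div, ← Finset.sum_add_distrib]
        refine Finset.sum_congr rfl fun i _ => ?_
        simp only [hx]
        ring
      rw [e2]
      unfold Sys.NN
      ring
    rw [e1]
    refine (abs_add_le _ _).trans ?_
    have := hNd l j
    have := hqd l j
    linarith
  refine ⟨W, fun l => ∑ i ∈ W, S.v i l - ∑ i ∈ V, x i * S.v i l,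
    fun l => ∑ i ∈ W, |S.v i l| - ∑ i ∈ V, x i * |S.v i l|, ?_⟩
  refine ⟨hWV, ?_, ?_, hflag, horth, hg, ?_, ?_, hNN, ?_⟩
  · intro l hl
    have := hmean l
    have := hy2 l hl
    linarith
  · intro l hl
    have h4 := hmean l
    have h5 := hy3 l hl
    have e : ∑ i ∈ W, S.v i l - (∑ i ∈ V, S.v i l) / 2 -
        (∑ i ∈ W, S.v i l - ∑ i ∈ V, x i * S.v i l) = ∑ j, S.NN V l j * y j := by
      rw [h4]; ring
    rw [e]
    exact h5
  · intro l
    have h4 : ∑ i ∈ V, x i * |S.v i l| ≤ (1 / 2 + S.th k) * S.TT V l := by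
      unfold Sys.TT
      rw [Finset.mul_sum]
      refine Finset.sum_le_sum fun i _ => ?_
      have := (hqb' i).2
      have h6 := abs_nonneg (S.v i l)
      simp only [hx]
      nlinarith
    have h5 := le_abs_self (∑ i ∈ W, |S.v i l| - ∑ i ∈ V, x i * |S.v i l|)
    change ∑ i ∈ W, |S.v i l| ≤ _
    linarith
  · intro l
    have h4 : ∑ i ∈ V, |S.v i l| - ∑ i ∈ V, x i * |S.v i l| ≤ (1 / 2 + S.th k) * S.TT V l := by
      unfold Sys.TT
      rw [Finset.mul_sum, ← Finset.sum_sub_distrib]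
      refine Finset.sum_le_sum fun i _ => ?_
      have := (hqb' i).1
      have h6 := abs_nonneg (S.v i l)
      simp only [hx]
      nlinarith
    have h5 := neg_abs_le (∑ i ∈ W, |S.v i l| - ∑ i ∈ V, x i * |S.v i l|)
    have h6 := hsd (fun i => |S.v i l|)
    change ∑ i ∈ V \ W, |S.v i l| ≤ _
    linarith
  · intro l j
    have h4 := hNN l j
    have h6 := hsd (fun i => S.d j i * S.v i l)
    have e : S.NN (V \ W) l j - S.NN V l j / 2 = -(S.NN W l j - S.NN V l j / 2) := by
      unfold Sys.NN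
      rw [h6]
      ring
    rw [e, abs_neg]
    exact h4

end Pool.Agent.H380R3.SZ
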