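import Pool.Agent.H380R3.SZ.Defs

/-! D3: the invariant for `T`. -/

set_option autoImplicit false

namespace Pool.Agent.H380R3.SZ

open Finset

theorem tD3 (h1 : S_th) (h2 : S_num) : S_stepT := by
  intro m n S k V W g hm hV hg hW l
  obtain ⟨a1, a2, a3, a4, a5⟩ := h1 m n S k hm
  obtain ⟨-, b1, -⟩ := h2 m hm
  have hm1 : (1 : ℝ) ≤ m := by exact_mod_cast hm
  have hm3 : (1 : ℝ) ≤ (m : ℝ) ^ 3 := one_le_pow₀ hm1
  have hT : S.Th k ≤ 1 / 4 := by
    refine a4.trans ?_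
    rw [div_le_div_iff₀ (by positivity) (by norm_num)]
    linarith
  have hW' := hW l
  have hV' := hV l
  have hgl := hg l
  rw [a3]
  have ht : 0 < S.t l := S.ht l
  set x : ℝ := m * (S.t l / 2 ^ k) with hx
  have hx0 : 0 ≤ x := by positivity
  have e1 : (m : ℝ) * (S.t l / 2 ^ (k + 1)) = x / 2 := by
    rw [hx, pow_succ]
    field_simp
  rw [e1]
  set T := S.Th k with hTd
  set th := S.th k with hth
  set n1 := N1 m with hn1
  have c1 : (1 / 2 + th) * S.TT V l ≤ (1 / 2 + th) * ((1 + 4 * T) * (x + 2 * n1)) :=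
    mul_le_mul_of_nonneg_left hV' (by linarith)
  have c2 : (1 / 2 + th) * (1 + 4 * T) ≤ 1 / 2 * (1 + 4 * (T + th)) := by nlinarith
  have c3 : (1 / 2 + th) * (1 + 4 * T) * (x + 2 * n1) ≤
      1 / 2 * (1 + 4 * (T + th)) * (x + 2 * n1) :=
    mul_le_mul_of_nonneg_right c2 (by linarith)
  have c4 : 0 ≤ (T + th) * n1 := mul_nonneg (by linarith) (by linarith)
  nlinarith

end Pool.Agent.H380R3.SZ
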