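import Pool.Agent.H380R3.SZ.Defs

set_option autoImplicit false

namespace Pool.Agent.H380R3.SZ

theorem tD4 (h1 : S_th) (h2 : S_num) : S_stepN := by
  intro m n S k V W hm hT hN hW l j
  obtain ⟨hth0, hTh0, hThs, hTh1, hth1⟩ := h1 m n S k hm
  obtain ⟨-, hN1, -⟩ := h2 m hm
  have hm1 : (1 : ℝ) ≤ m := by exact_mod_cast hm
  have hsmall : 1 / (512 * (m : ℝ) ^ 3) ≤ 1 / 8 := by
    apply one_div_le_one_div_of_le (by norm_num)
    have : (1 : ℝ) ≤ (m : ℝ) ^ 3 := one_le_pow₀ hm1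
    linarith
  have hTh2 : S.Th k ≤ 1 / 8 := le_trans hTh1 hsmall
  have hth2 : S.th k ≤ 1 / 8 := le_trans hth1 hsmall
  have ht : 0 < S.t l := S.ht l
  have hτ0 : 0 < S.t l / 2 ^ k := by positivity
  have hτs : S.t l / 2 ^ (k + 1) = (S.t l / 2 ^ k) / 2 := by
    rw [pow_succ]; field_simp
  have hTl := hT l
  have hNl := hN l j
  have hWl := hW l j
  rw [hτs, hThs]
  set τ := S.t l / 2 ^ k with hτ
  have hite : (if l = j then τ / 2 else 0) = (if l = j then τ else 0) / 2 := by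
    split_ifs <;> simp
  rw [hite]
  set δ := (if l = j then τ else 0) with hδ
  have hTT : S.th k * S.TT V l ≤ 2 * m * S.th k * τ + N1 m / 2 := by
    have a1 : S.TT V l ≤ 2 * (m * τ + 2 * N1 m) := by
      have hnn : 0 ≤ m * τ + 2 * N1 m := by
        have : 0 ≤ (m : ℝ) * τ := by positivity
        linarith
      have : (1 + 4 * S.Th k) * (m * τ + 2 * N1 m) ≤ 2 * (m * τ + 2 * N1 m) :=
        mul_le_mul_of_nonneg_right (by linarith) hnn
      linarith
    have a2 := mul_le_mul_of_nonneg_left a1 hth0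
    have a3 : S.th k * (4 * N1 m) ≤ 1 / 8 * (4 * N1 m) :=
      mul_le_mul_of_nonneg_right hth2 (by linarith)
    nlinarith
  have key : S.NN W l j - δ / 2 = (S.NN W l j - S.NN V l j / 2) + (S.NN V l j - δ) / 2 := by ring
  rw [key]
  have b1 := abs_add_le (S.NN W l j - S.NN V l j / 2) ((S.NN V l j - δ) / 2)
  have b2 : |(S.NN V l j - δ) / 2| = |S.NN V l j - δ| / 2 := by
    rw [abs_div, abs_of_pos (by norm_num : (0 : ℝ) < 2)]
  rw [b2] at b1
  nlinarith

end Pool.Agent.H380R3.SZ
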