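import Pool.Agent.H380R3.SZ.Defs

set_option autoImplicit false

namespace Pool.Agent.H380R3.SZ

open Finset

noncomputable section

theorem tD5_Ds {m : ℕ} : 0 ≤ Ds m := by
  unfold Ds; positivity

theorem tD5_lift (h2 : S_th) {m n : ℕ} (S : Sys m n) (k : ℕ) (P A : Fin m → ℝ) (hm : 1 ≤ m)
    (hE : InvE S k P A) : InvE S (k + 1) P A := by
  obtain ⟨_, h0, hs, _, _⟩ := h2 m n S k hm
  have hth := (h2 m n S k hm).1
  have hTh1 : 0 ≤ S.Th (k + 1) := by rw [hs]; linarith
  have hDs : 0 ≤ Ds m := tD5_Ds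
  refine ⟨fun l hl => hE.1 l (by omega), ?_⟩
  intro l hl1 hl2
  by_cases hl : k < S.a l
  · rw [(hE.1 l hl).1, sub_self, abs_zero]
    exact mul_nonneg hTh1 hDs
  · refine (hE.2 l (by omega) (by omega)).trans ?_
    apply mul_le_mul_of_nonneg_right _ hDs
    rw [hs]; linarith

theorem tD5 (h1 : S_idx) (h2 : S_th) (h3 : S_num) : S_stepE := by
  intro m n S k V W P P' A A' e g hm hP' hE hE' hS
  refine ⟨tD5_lift h2 S k P A hm hE, tD5_lift h2 S k P' A' hm hE', ?_⟩
  obtain ⟨hth, h0, hs, _, _⟩ := h2 m n S k hm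
  have hTh1 : 0 ≤ S.Th (k + 1) := by rw [hs]; linarith
  have hDs : 0 ≤ Ds m := tD5_Ds
  obtain ⟨i1, i2, i3, i4, i5⟩ := h1 m n S hm
  have hact : ∀ l, k < S.a l → MM S W P l = Ms S k A A' e l ∧ Ms S k A A' e l = e l := by
    intro l hl
    have h4 := hS.act l hl
    unfold cc at h4
    have h5 : Ms S k A A' e l = e l := by
      unfold Ms; rw [if_pos hl]
    refine ⟨?_, h5⟩
    rw [h5]
    unfold MM
    linarith
  refine ⟨?_, ?_⟩
  · intro l hl
    have hl' : k < S.a l := by omega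
    obtain ⟨h4, h5⟩ := hact l hl'
    refine ⟨h4, ?_⟩
    rw [h5]
    have h6 := hS.flag (l.val + 1)
    have h7 : S.J k ≤ l.val := by
      by_contra hcon
      have := (i3 k l).mp (by omega)
      omega
    have h8 : S.i0 k ≤ l.val := (i5 k).1.trans h7
    have h9 : (e l) ^ 2 ≤ ∑ l' ∈ univ.filter (fun l' : Fin m => S.i0 k ≤ l'.val ∧ l'.val < l.val + 1),
        ((e l') ^ 2 + (g l') ^ 2) := by
      have h10 := Finset.single_le_sum (f := fun l' => (e l') ^ 2 + (g l') ^ 2)
        (s := univ.filter (fun l' : Fin m => S.i0 k ≤ l'.val ∧ l'.val < l.val + 1))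
        (fun i _ => by positivity) (a := l) (by simp [h8])
      have h11 : (e l) ^ 2 ≤ (e l) ^ 2 + (g l) ^ 2 := by nlinarith [sq_nonneg (g l)]
      exact h11.trans h10
    have h12 : ((l.val + 1 - S.i0 k : ℕ) : ℝ) ≤ (m : ℝ) := by
      have := l.isLt
      exact_mod_cast (by omega : l.val + 1 - S.i0 k ≤ m)
    obtain ⟨_, _, _, hb0, hb2, _⟩ := h3 m hm
    apply abs_le_of_sq_le_sq _ hb0.le
    rw [hb2]
    calc (e l) ^ 2 ≤ _ := h9
      _ ≤ _ := h6
      _ ≤ 256 * (m : ℝ) := by linarith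
  · intro l hl1 hl2
    by_cases hl : k < S.a l
    · rw [(hact l hl).1, sub_self, abs_zero]
      exact mul_nonneg hTh1 hDs
    · have hak : S.a l ≤ k := by omega
      have h4 := hS.inact l hak
      have h5 := hE.2 l hak (by omega)
      have h6 := hE'.2 l hak (by omega)
      have h7 : Ms S k A A' e l = (A l + A' l) / 2 + e l := by
        unfold Ms
        rw [if_neg hl, if_pos (by omega)]
      rw [h7, hs]
      unfold MM
      have h8 := hP' l
      rw [abs_le] at h4 h5 h6 ⊢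
      obtain ⟨h4a, h4b⟩ := h4
      obtain ⟨h5a, h5b⟩ := h5
      obtain ⟨h6a, h6b⟩ := h6
      rw [add_mul]
      constructor
      · linarith
      · linarith

end

end Pool.Agent.H380R3.SZ
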