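import Pool.Agent.H380R3.SZ.Defs

set_option autoImplicit false

namespace Pool.Agent.H380R3.SZ

open Finset

theorem tD6 (h1 : S_idx) : S_stepS := by
  intro m n S k V W P A A' e g hm hA hA' hsp
  obtain ⟨_, _, hJ, hI, hmono⟩ := h1 m n S hm
  obtain ⟨hi0J, hJm, hJJ, hXX⟩ := hmono k
  have mono : ∀ B : Fin m → ℝ, InvS S k B → InvS S (k + 1) B := by
    intro B hB i hi him
    refine le_trans (hB i (le_trans hJJ hi) him) ?_
    have : (S.X k : ℝ) ≤ (S.X (k + 1) : ℝ) := by exact_mod_cast hXX
    linarith
  refine ⟨mono A hA, mono A' hA', ?_⟩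
  intro i hi him
  have hJi : S.J k ≤ i := le_trans hJJ hi
  have hX : (S.X (k + 1) : ℝ) = S.X k + (S.J k - S.i0 k : ℕ) := by
    have : S.X (k + 1) = S.X k + (S.J k - S.i0 k) := by
      unfold Sys.X
      rw [Finset.sum_range_succ]
    exact_mod_cast this
  have e1 := hA (S.J k) le_rfl hJm
  have e2 := hA' (S.J k) le_rfl hJm
  have e3 := hsp.flag i
  have e4 := hsp.orth
  rw [Finset.sum_filter] at e1 e2 e3 ⊢
  have key : ∑ l : Fin m, (if l.val < i then (Ms S k A A' e l) ^ 2 else 0)
      ≤ ∑ l : Fin m, ((if l.val < S.J k then (A l) ^ 2 else 0) / 2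
        + (if l.val < S.J k then (A' l) ^ 2 else 0) / 2
        + 2 * (ww S k A A' l * e l)
        + (if S.i0 k ≤ l.val ∧ l.val < i then (e l) ^ 2 + (g l) ^ 2 else 0)) := by
    apply Finset.sum_le_sum
    intro l _
    have hJl := hJ k l
    have hIl := hI k l
    unfold Ms ww
    by_cases c1 : k < S.a l
    · -- active
      have n1 : ¬ (S.a l ≤ k ∧ k < S.a l + LL m) := by omega
      have n2 : ¬ l.val < S.J k := by rw [hJl]; omega
      have n3 : S.i0 k ≤ l.val := by omega
      simp only [c1, n1, n2, n3, if_true, if_false, true_and]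
      by_cases c2 : l.val < i
      · simp only [c2, if_true]
        nlinarith [sq_nonneg (g l)]
      · simp only [c2, if_false]
        norm_num
    · have n2 : l.val < S.J k := by rw [hJl]; omega
      have n4 : l.val < i := lt_of_lt_of_le n2 hJi
      by_cases c3 : k < S.a l + LL m
      · have n1 : (S.a l ≤ k ∧ k < S.a l + LL m) := by omega
        have n3 : S.i0 k ≤ l.val := by
          by_contra hh
          have := hIl.1 (by omega)
          omega
        simp only [c1, c3, n1, n2, n3, n4, if_true, if_false, and_self]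
        nlinarith [sq_nonneg (g l), sq_nonneg (A l - A' l)]
      · have n1 : ¬ (S.a l ≤ k ∧ k < S.a l + LL m) := by omega
        have n3 : ¬ S.i0 k ≤ l.val := by
          have := hIl.2 (by omega)
          omega
        simp only [c1, c3, n2, n3, n4, if_true, if_false, false_and, and_false]
        nlinarith [sq_nonneg (A l - A' l)]
  refine le_trans key ?_
  rw [Finset.sum_add_distrib, Finset.sum_add_distrib, Finset.sum_add_distrib,
    ← Finset.sum_div, ← Finset.sum_div, ← Finset.mul_sum]
  have hc1 : ((i - S.i0 k : ℕ) : ℝ) = (i : ℝ) - S.i0 k := by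
    rw [Nat.cast_sub (le_trans hi0J hJi)]
  have hc2 : ((S.J k - S.i0 k : ℕ) : ℝ) = (S.J k : ℝ) - S.i0 k := by
    rw [Nat.cast_sub hi0J]
  rw [hX, hc2]
  rw [hc1] at e3
  linarith

end Pool.Agent.H380R3.SZ
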