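import Pool.Agent.H380R3.SZ.Defs

set_option autoImplicit false

namespace Pool.Agent.H380R3.SZ

open Finset

theorem tD7 (h1 : S_idx) (h2 : S_th) (h3 : S_num) : S_stepG := by
  intro m n S k V W G e g hm hG hT hW hflag
  obtain ⟨i1, i2, i3, i4, i5⟩ := h1 m n S hm
  obtain ⟨q1, q2, q3, q4, q5⟩ := h2 m n S k hm
  obtain ⟨r1, r2, r3, r4, r5⟩ := h2 m n S (k + 1) hm
  obtain ⟨n1, n2, n3, n4, n5, n6, n7, n8, -⟩ := h3 m hm
  obtain ⟨g1, g2, g3⟩ := hG
  have hm1 : (1 : ℝ) ≤ (m : ℝ) := by exact_mod_cast hm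
  have hm3 : (1 : ℝ) ≤ (m : ℝ) ^ 3 := one_le_pow₀ hm1
  have hsm : 1 / (512 * (m : ℝ) ^ 3) ≤ 1 / 512 := by
    apply one_div_le_one_div_of_le (by norm_num)
    linarith
  have hTT0 : ∀ (U : Finset (Fin n)) (l : Fin m), 0 ≤ S.TT U l := fun U l =>
    Finset.sum_nonneg fun i _ => abs_nonneg _
  have hGn0 : ∀ l, 0 ≤ Gn S k G g l := by
    intro l
    unfold Gn
    split_ifs
    · exact add_nonneg (g1 l) (sq_nonneg _)
    · exact g1 l
  refine ⟨hGn0, ?_, ?_⟩
  · intro l hl1 hl2
    rcases Nat.lt_or_ge k (S.a l) with hk | hk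
    · have hak : S.a l = k + 1 := by omega
      rw [hak, Nat.sub_self, pow_zero, div_one]
      have ht : S.t l < 2 ^ (k + 1) * Lam m := by
        by_contra h
        have := (i1 (k + 1) l).2 (not_lt.1 h)
        omega
      have hp : (0 : ℝ) < 2 ^ (k + 1) := by positivity
      have ht' : S.t l / 2 ^ (k + 1) ≤ Lam m := by
        rw [div_le_iff₀ hp]
        linarith
      have h5 := hT l
      have h6 : S.TT W l ≤ DD m := by
        refine h5.trans ?_
        unfold DD
        have hb : (m : ℝ) * (S.t l / 2 ^ (k + 1)) + 2 * N1 m ≤ m * Lam m + 2 * N1 m := by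
          have := mul_le_mul_of_nonneg_left ht' (by linarith : (0 : ℝ) ≤ m)
          linarith
        have hb0 : 0 ≤ (m : ℝ) * (S.t l / 2 ^ (k + 1)) + 2 * N1 m := by
          have := (S.ht l).le
          positivity
        have hc : 1 + 4 * S.Th (k + 1) ≤ 2 := by linarith
        exact mul_le_mul hc hb hb0 (by norm_num)
      have h7 : S.TT W l ^ 2 ≤ DD m ^ 2 := pow_le_pow_left₀ (hTT0 W l) h6 2
      have := hGn0 l
      linarith
    · have hGn : Gn S k G g l = G l + (g l) ^ 2 := by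
        unfold Gn
        rw [if_pos ⟨hk, by omega⟩]
      rw [hGn]
      have h5 := g2 l hk (by omega)
      have h6 := hW l
      have hpow : (2 : ℝ) ^ (k + 1 - S.a l) = 2 * 2 ^ (k - S.a l) := by
        have : k + 1 - S.a l = (k - S.a l) + 1 := by omega
        rw [this, pow_succ]
        ring
      have hp : (0 : ℝ) < 2 ^ (k - S.a l) := by positivity
      have h7 : DD m ^ 2 / 2 ^ (k + 1 - S.a l) = (DD m ^ 2 / 2 ^ (k - S.a l)) / 2 := by
        rw [hpow]
        field_simp
      rw [h7]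
      have hv := hTT0 V l
      have hc : (1 / 2 + S.th k) ≤ 257 / 512 := by linarith
      have hc' : (1 / 2 + S.th k) * S.TT V l ≤ 257 / 512 * S.TT V l :=
        mul_le_mul_of_nonneg_right hc hv
      have h8 : S.TT W l ≤ 257 / 512 * S.TT V l + |g l| := by linarith
      have h9 : S.TT W l ^ 2 ≤ (257 / 512 * S.TT V l + |g l|) ^ 2 :=
        pow_le_pow_left₀ (hTT0 W l) h8 2
      have h10 : (257 / 512 * S.TT V l + |g l|) ^ 2 ≤ S.TT V l ^ 2 / 2 + 3 * g l ^ 2 := by
        have ha : |g l| ^ 2 = g l ^ 2 := sq_abs _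
        nlinarith [sq_nonneg (257 / 512 * S.TT V l - 2 * |g l|), sq_nonneg (S.TT V l), ha]
      have := g1 l
      nlinarith
  · have hsum : ∑ l, Gn S k G g l = ∑ l, G l +
        ∑ l ∈ univ.filter (fun l : Fin m => S.i0 k ≤ l.val ∧ l.val < S.J k), (g l) ^ 2 := by
      rw [Finset.sum_filter, ← Finset.sum_add_distrib]
      refine Finset.sum_congr rfl fun l _ => ?_
      unfold Gn
      have e1 := i3 k l
      have e2 := i4 k l
      by_cases hc : S.a l ≤ k ∧ k < S.a l + LL m
      · rw [if_pos hc, if_pos]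
        refine ⟨?_, e1.2 hc.1⟩
        by_contra h
        have := e2.1 (not_le.1 h)
        omega
      · rw [if_neg hc, if_neg, add_zero]
        rintro ⟨c1, c2⟩
        refine hc ⟨e1.1 c2, ?_⟩
        by_contra h
        have := e2.2 (not_lt.1 h)
        omega
    rw [hsum]
    have h5 := hflag (S.J k)
    have h6 : ∑ l ∈ univ.filter (fun l : Fin m => S.i0 k ≤ l.val ∧ l.val < S.J k), (g l) ^ 2 ≤
        ∑ l ∈ univ.filter (fun l : Fin m => S.i0 k ≤ l.val ∧ l.val < S.J k),
          ((e l) ^ 2 + (g l) ^ 2) :=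
      Finset.sum_le_sum fun l _ => by linarith [sq_nonneg (e l)]
    have h7 : S.X (k + 1) = S.X k + (S.J k - S.i0 k) := by
      unfold Sys.X
      rw [Finset.sum_range_succ]
    rw [h7]
    push_cast [i5 k |>.1]
    push_cast [i5 k |>.1] at h5
    linarith

end Pool.Agent.H380R3.SZ
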