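import Pool.Agent.H380R3.SZ.Defs

/-!
# Steinitz constant, task D8: frozen coordinates of the children
-/

set_option autoImplicit false

namespace Pool.Agent.H380R3.SZ

open Finset

noncomputable section

namespace D8

theorem sq_bound {x y T g : ℝ} (hx : |x| ≤ 1) (hy : |y| ≤ T) (hT : T ^ 2 ≤ 1 + 3 * g) :
    (x + y) ^ 2 ≤ 4 + 6 * g := by
  have h1 : x ^ 2 ≤ 1 := by
    rw [← sq_abs]
    nlinarith [abs_nonneg x]
  have h2 : y ^ 2 ≤ T ^ 2 := by
    rw [← sq_abs y]
    exact pow_le_pow_left₀ (abs_nonneg y) hy 2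
  nlinarith [sq_nonneg (x - y)]

theorem abs_sum_le {m n : ℕ} (S : Sys m n) {W' X : Finset (Fin n)} (h : W' ⊆ X) (l : Fin m) :
    |∑ i ∈ W', S.v i l| ≤ S.TT X l := by
  unfold Sys.TT
  exact (Finset.abs_sum_le_sum_abs _ _).trans
    (Finset.sum_le_sum_of_subset_of_nonneg h fun i _ _ => abs_nonneg _)

theorem mid_sq {u A A' g : ℝ} (h1 : (u - A) ^ 2 ≤ g) (h2 : (u - A') ^ 2 ≤ g) :
    (u - (A + A') / 2) ^ 2 ≤ g := by
  nlinarith [sq_nonneg (A - A')]

end D8

theorem tD8 (h1 : S_th) (h2 : S_num) : S_stepF := by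
  intro m n S k V W P P' A A' G e g hm hWV hInv hE hE' hEM hG1 hG2
  obtain ⟨_, _, _, _, _, _, _, hDD, _, hDs, _, _⟩ := h2 m hm
  obtain ⟨_, _, _, hTh, _⟩ := h1 m n S (k + 1) hm
  have hDs0 : 0 ≤ Ds m := by unfold Ds; positivity
  have hone : S.Th (k + 1) * Ds m ≤ 1 :=
    (mul_le_mul_of_nonneg_right hTh hDs0).trans hDs
  -- new frozen coordinates
  have hTT : ∀ X : Finset (Fin n), InvG S (k + 1) X (Gn S k G g) → ∀ l, S.a l + LL m = k + 1 →
      (S.TT X l) ^ 2 ≤ 1 + 3 * Gn S k G g l := by
    intro X hX l hl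
    have h3 := hX.2.1 l (by omega) (by omega)
    have h4 : k + 1 - S.a l = LL m := by omega
    rw [h4] at h3
    have h5 : (DD m) ^ 2 / 2 ^ (LL m) ≤ 1 := by
      rw [div_le_one (by positivity)]
      exact hDD
    linarith
  have hdist : ∀ (Q B : Fin m → ℝ), InvE S (k + 1) Q B → ∀ l, S.a l + LL m = k + 1 →
      |Q l - B l| ≤ 1 := by
    intro Q B hQ l hl
    exact (hQ.2 l (by omega) (by omega)).trans hone
  have hMs : ∀ l, S.a l + LL m ≤ k → Ms S k A A' e l = (A l + A' l) / 2 := by
    intro l hl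
    unfold Ms
    rw [if_neg (by omega), if_neg (by omega)]
  have hGn : ∀ l, S.a l + LL m ≤ k → Gn S k G g l = G l := by
    intro l hl
    unfold Gn
    rw [if_neg (by omega)]
  constructor
  · intro l hl W' hW'
    rcases Nat.lt_or_ge (S.a l + LL m) (k + 1) with hlt | hge
    · have hl' : S.a l + LL m ≤ k := by omega
      have h3 := hInv.F l hl' W' (hW'.trans hWV)
      rw [hMs l hl', hGn l hl']
      exact ⟨h3.1, D8.mid_sq h3.1 h3.2⟩
    · have hl' : S.a l + LL m = k + 1 := by omega
      have hT := hTT W hG1 l hl'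
      constructor
      · have h3 := D8.sq_bound (hdist P A hE l hl') (D8.abs_sum_le S hW' l) hT
        have h4 : P l + ∑ i ∈ W', S.v i l - A l = P l - A l + ∑ i ∈ W', S.v i l := by ring
        rw [h4]
        exact h3
      · have h3 := D8.sq_bound (y := -∑ i ∈ W \ W', S.v i l)
          (hdist _ _ hEM l hl') (by
            rw [abs_neg]
            exact D8.abs_sum_le S sdiff_subset l) hT
        have h5 := Finset.sum_sdiff (f := fun i => S.v i l) hW'
        have h4 : P l + ∑ i ∈ W', S.v i l - Ms S k A A' e l =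
            MM S W P l - Ms S k A A' e l + -∑ i ∈ W \ W', S.v i l := by
          unfold MM
          linarith
        rw [h4]
        exact h3
  · intro l hl W' hW'
    have hdisj : Disjoint W W' := by
      rw [Finset.disjoint_left]
      intro i hi hi'
      exact (Finset.mem_sdiff.1 (hW' hi')).2 hi
    have hsub : W ∪ W' ⊆ V := Finset.union_subset hWV (hW'.trans sdiff_subset)
    have hun : MM S W P l + ∑ i ∈ W', S.v i l = P l + ∑ i ∈ W ∪ W', S.v i l := by
      unfold MM
      rw [Finset.sum_union hdisj]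
      ring
    rcases Nat.lt_or_ge (S.a l + LL m) (k + 1) with hlt | hge
    · have hl' : S.a l + LL m ≤ k := by omega
      have h3 := hInv.F l hl' (W ∪ W') hsub
      rw [hun, hMs l hl', hGn l hl']
      exact ⟨D8.mid_sq h3.1 h3.2, h3.2⟩
    · have hl' : S.a l + LL m = k + 1 := by omega
      have hT := hTT (V \ W) hG2 l hl'
      constructor
      · have h3 := D8.sq_bound (hdist _ _ hEM l hl') (D8.abs_sum_le S hW' l) hT
        have h4 : MM S W P l + ∑ i ∈ W', S.v i l - Ms S k A A' e l =
            MM S W P l - Ms S k A A' e l + ∑ i ∈ W', S.v i l := by ring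
        rw [h4]
        exact h3
      · have h3 := D8.sq_bound (y := -∑ i ∈ (V \ W) \ W', S.v i l)
          (hdist P' A' hE' l hl') (by
            rw [abs_neg]
            exact D8.abs_sum_le S sdiff_subset l) hT
        have h5 := Finset.sum_sdiff (f := fun i => S.v i l) hW'
        have h6 := Finset.sum_sdiff (f := fun i => S.v i l) hWV
        have h7 := hInv.hP l
        have h4 : MM S W P l + ∑ i ∈ W', S.v i l - A' l =
            P' l - A' l + -∑ i ∈ (V \ W) \ W', S.v i l := by
          unfold MM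
          linarith
        rw [h4]
        exact h3

end

end Pool.Agent.H380R3.SZ
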