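import Pool.Agent.H380R3.SZ.Defs

/-!
# (D9) one step of the tree: assembly of (D2)-(D8)   (helper972)
-/

set_option autoImplicit false

namespace Pool.Agent.H380R3.SZ

open Finset

theorem tD9 (h1 : S_split) (h2 : S_stepT) (h3 : S_stepN) (h4 : S_stepE) (h5 : S_stepS)
    (h6 : S_stepG) (h7 : S_stepF) : S_tstep := by
  intro m n S k V P P' A A' G hm hI
  have hc : ∀ l, k < S.a l → |cc S V P l| ≤ b0 m := by
    intro l hl
    obtain ⟨e1, b1⟩ := hI.E.1 l hl
    obtain ⟨e2, b2⟩ := hI.E'.1 l hl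
    have e3 := hI.hP l
    have e4 : cc S V P l = (A l + A' l) / 2 := by
      unfold cc
      rw [← e1, ← e2, e3]
      ring
    rw [e4, abs_le]
    rw [abs_le] at b1 b2
    constructor
    · linarith [b1.1, b2.1]
    · linarith [b1.2, b2.2]
  obtain ⟨W, e, g, hs⟩ := h1 m n S k V (cc S V P) (ww S k A A') hm hI.N hc
  have hTW : InvT S (k + 1) W := h2 m n S k V W g hm hI.T hs.gN hs.T1
  have hTU : InvT S (k + 1) (V \ W) := h2 m n S k V (V \ W) g hm hI.T hs.gN hs.T2
  have hNW : InvN S (k + 1) W := h3 m n S k V W hm hI.T hI.N hs.N1'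
  have hNU : InvN S (k + 1) (V \ W) := h3 m n S k V (V \ W) hm hI.T hI.N hs.N2'
  obtain ⟨hE1, hE2, hE3⟩ := h4 m n S k V W P P' A A' e g hm hI.hP hI.E hI.E' hs
  obtain ⟨hS1, hS2, hS3⟩ := h5 m n S k V W P A A' e g hm hI.Sh hI.Sh' hs
  have hGW : InvG S (k + 1) W (Gn S k G g) :=
    h6 m n S k V W G e g hm hI.Gg hTW hs.T1 hs.flag
  have hGU : InvG S (k + 1) (V \ W) (Gn S k G g) :=
    h6 m n S k V (V \ W) G e g hm hI.Gg hTU hs.T2 hs.flag
  obtain ⟨hF1, hF2⟩ := h7 m n S k V W P P' A A' G e g hm hs.sub hI hE1 hE2 hE3 hGW hGU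
  refine ⟨W, MM S W P, Ms S k A A' e, Gn S k G g, hs.sub, ?_, ?_⟩
  · exact
      { hP := fun l => rfl
        T := hTW
        N := hNW
        E := hE1
        E' := hE3
        Sh := hS1
        Sh' := hS3
        Gg := hGW
        F := hF1 }
  · exact
      { hP := by
          intro l
          have e1 := hI.hP l
          have e2 : ∑ i ∈ V \ W, S.v i l + ∑ i ∈ W, S.v i l = ∑ i ∈ V, S.v i l :=
            Finset.sum_sdiff hs.sub
          unfold MM
          rw [e1, ← e2]
          ring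
        T := hTU
        N := hNU
        E := hE3
        E' := hE2
        Sh := hS3
        Sh' := hS2
        Gg := hGU
        F := hF2 }

end Pool.Agent.H380R3.SZ
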