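import Pool.Agent.H380R3.SZ.Defs

set_option autoImplicit false

namespace Pool.Agent.H380R3.SZ

open Finset

noncomputable section

/-- a list all of whose prefix sums (started at `P`) are bounded -/
def GoodList {m n : ℕ} (S : Sys m n) (V : Finset (Fin n)) (P : Fin m → ℝ) (C : ℝ)
    (s : List (Fin n)) : Prop :=
  s.Nodup ∧ (∀ i, i ∈ s ↔ i ∈ V) ∧
    ∀ r : ℕ, ∑ l, (P l + ((s.take r).map (fun i => S.v i l)).sum) ^ 2 ≤ C

theorem listsum_eq {m n : ℕ} (S : Sys m n) (l : Fin m) (s : List (Fin n)) (hs : s.Nodup) :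
    (s.map (fun i => S.v i l)).sum = ∑ i ∈ s.toFinset, S.v i l := by
  rw [List.sum_toFinset _ hs]

theorem tE1_leaf (h3 : S_leaf) {m n : ℕ} (S : Sys m n) (hm : 1 ≤ m) (k : ℕ)
    (V : Finset (Fin n)) (P P' A A' G : Fin m → ℝ) (hI : Inv S k V P P' A A' G)
    (hk : ∀ l, S.a l + LL m ≤ k) : ∃ s, GoodList S V P (4104 * LL m * m) s := by
  refine ⟨V.toList, V.nodup_toList, fun i => V.mem_toList, fun r => ?_⟩
  have hnd : (V.toList.take r).Nodup := (V.nodup_toList).sublist (List.take_sublist _ _)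
  have := h3 m n S k V P P' A A' G hm hI hk (V.toList.take r).toFinset (by
    intro i hi
    rw [List.mem_toFinset] at hi
    exact V.mem_toList.1 (List.mem_of_mem_take hi))
  simpa only [listsum_eq S _ _ hnd] using this

theorem tE1_join {m n : ℕ} (S : Sys m n) (V W : Finset (Fin n)) (hW : W ⊆ V)
    (P M : Fin m → ℝ) (hM : ∀ l, M l = P l + ∑ i ∈ W, S.v i l) (C : ℝ)
    (s1 s2 : List (Fin n)) (g1 : GoodList S W P C s1) (g2 : GoodList S (V \ W) M C s2) :
    GoodList S V P C (s1 ++ s2) := by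
  obtain ⟨n1, m1, b1⟩ := g1
  obtain ⟨n2, m2, b2⟩ := g2
  refine ⟨?_, ?_, ?_⟩
  · rw [List.nodup_append]
    refine ⟨n1, n2, ?_⟩
    intro a ha b hb hab
    subst hab
    have h1 := (m1 a).1 ha
    have h2 := (m2 a).1 hb
    rw [Finset.mem_sdiff] at h2
    exact h2.2 h1
  · intro i
    rw [List.mem_append, m1, m2, Finset.mem_sdiff]
    constructor
    · rintro (h | h)
      · exact hW h
      · exact h.1
    · intro h
      by_cases hw : i ∈ W
      · exact Or.inl hw
      · exact Or.inr ⟨h, hw⟩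
  · intro r
    by_cases hr : r ≤ s1.length
    · rw [List.take_append_of_le_length hr]
      exact b1 r
    · push Not at hr
      obtain ⟨q, rfl⟩ := Nat.exists_eq_add_of_lt hr
      have e1 : ((s1 ++ s2).take (s1.length + q + 1)) = s1 ++ s2.take (q + 1) := by
        rw [List.take_append]
        have : s1.take (s1.length + q + 1) = s1 := List.take_of_length_le (by omega)
        rw [this]
        congr 2
        omega
      rw [e1]
      have e2 : s1.toFinset = W := by
        ext i
        rw [List.mem_toFinset, m1]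
      have := b2 (q + 1)
      refine le_trans (le_of_eq ?_) this
      refine Finset.sum_congr rfl fun l _ => ?_
      rw [List.map_append, List.sum_append, listsum_eq S l s1 n1, e2, hM l]
      ring

theorem tE1 (h1 : S_tstep) (h2 : S_root) (h3 : S_leaf) : S_tree := by
  intro m n S hm
  obtain ⟨K, hK⟩ : ∃ K : ℕ, ∀ l : Fin m, S.a l + LL m ≤ K := by
    refine ⟨∑ l : Fin m, (S.a l + LL m), fun l => ?_⟩
    exact Finset.single_le_sum (f := fun l : Fin m => S.a l + LL m)
      (fun _ _ => Nat.zero_le _) (Finset.mem_univ l)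
  have key : ∀ d k : ℕ, K ≤ k + d → ∀ (V : Finset (Fin n)) (P P' A A' G : Fin m → ℝ),
      Inv S k V P P' A A' G → ∃ s, GoodList S V P (4104 * LL m * m) s := by
    intro d
    induction d with
    | zero =>
      intro k hk V P P' A A' G hI
      exact tE1_leaf h3 S hm k V P P' A A' G hI (fun l => le_trans (hK l) (by simpa using hk))
    | succ d ih =>
      intro k hk V P P' A A' G hI
      obtain ⟨W, M, B, G', hW, hI1, hI2⟩ := h1 m n S k V P P' A A' G hm hI
      obtain ⟨s1, g1⟩ := ih (k + 1) (by omega) W P M A B G' hI1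
      obtain ⟨s2, g2⟩ := ih (k + 1) (by omega) (V \ W) M P' B A' G' hI2
      exact ⟨s1 ++ s2, tE1_join S V W hW P M hI1.hP _ s1 s2 g1 g2⟩
  obtain ⟨s, hs1, hs2, hs3⟩ := key K 0 (by omega) univ 0 0 0 0 0 (h2 m n S hm)
  refine ⟨s, hs1, fun i => (hs2 i).2 (Finset.mem_univ i), fun r => ?_⟩
  have := hs3 r
  simpa using this

end

end Pool.Agent.H380R3.SZ
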