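import Pool.Agent.H380R3.SZ.Defs

set_option autoImplicit false

namespace Pool.Agent.H380R3.SZ

open Finset

theorem te3_take {α β : Type} (f : α → Option β) (l : List α) :
    ∀ r : ℕ, ∃ r' : ℕ, (l.filterMap f).take r = (l.take r').filterMap f := by
  induction l with
  | nil => intro r; exact ⟨0, by simp⟩
  | cons a l ih =>
    intro r
    rcases hf : f a with _ | b
    · obtain ⟨r', hr'⟩ := ih r
      refine ⟨r' + 1, ?_⟩
      rw [List.filterMap_cons_none hf, List.take_succ_cons, List.filterMap_cons_none hf]
      exact hr'
    · rcases r with _ | r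
      · exact ⟨0, by simp⟩
      · obtain ⟨r', hr'⟩ := ih r
        refine ⟨r' + 1, ?_⟩
        rw [List.filterMap_cons_some hf, List.take_succ_cons, List.take_succ_cons,
          List.filterMap_cons_some hf, hr']

/-- the extended family -/
noncomputable def te3_v {m n : ℕ} (v : Fin n → Fin m → ℝ) : Fin (n + (m + m)) → Fin m → ℝ :=
  Fin.append v (Fin.append (fun j => Pi.single j (1 : ℝ)) (fun j => -Pi.single j (1 : ℝ)))

/-- the additional part of the family -/
noncomputable def te3_h (m n : ℕ) : Fin (n + (m + m)) → Fin m → ℝ :=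
  Fin.append (fun _ => 0) (Fin.append (fun j => Pi.single j (1 : ℝ)) (fun j => -Pi.single j (1 : ℝ)))

def te3_f {m n : ℕ} (i : Fin (n + (m + m))) : Option (Fin n) :=
  if h : i.val < n then some ⟨i.val, h⟩ else none

theorem te3_sum {m n : ℕ} (v : Fin n → Fin m → ℝ) (l : Fin m) (q : List (Fin (n + (m + m)))) :
    (q.map (fun i => te3_v v i l)).sum =
      ((q.filterMap te3_f).map (fun i => v i l)).sum + (q.map (fun i => te3_h m n i l)).sum := by
  induction q with
  | nil => simp
  | cons a q ih =>
    rw [List.map_cons, List.sum_cons, ih, List.map_cons, List.sum_cons]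
    refine Fin.addCases (fun i => ?_) (fun i => ?_) a
    · have hf : te3_f (m := m) (Fin.castAdd (m + m) i) = some i := by
        unfold te3_f
        simp
      rw [List.filterMap_cons_some hf]
      simp only [te3_v, te3_h, Fin.append_left, List.map_cons, List.sum_cons, Pi.zero_apply]
      ring
    · have hf : te3_f (m := m) (Fin.natAdd n i) = none := by
        unfold te3_f
        simp
      rw [List.filterMap_cons_none hf]
      simp only [te3_v, te3_h, Fin.append_right]
      ring

theorem te3_rest {m n : ℕ} (l : Fin m) (q : List (Fin (n + (m + m)))) (hq : q.Nodup) :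
    |(q.map (fun i => te3_h m n i l)).sum| ≤ 1 := by
  classical
  have h1 : (q.map (fun i => te3_h m n i l)).sum
      = ∑ i, if i ∈ q then te3_h m n i l else 0 := by
    rw [← List.sum_toFinset _ hq, ← Finset.sum_filter]
    congr 1
    ext i
    simp
  rw [h1, Fin.sum_univ_add, Fin.sum_univ_add]
  have h2 : ∀ i : Fin n, (if Fin.castAdd (m + m) i ∈ q then te3_h m n (Fin.castAdd (m + m) i) l
      else 0) = 0 := by
    intro i
    simp [te3_h, Fin.append_left]
  have h3 : ∀ i : Fin m, (if Fin.natAdd n (Fin.castAdd m i) ∈ q then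
      te3_h m n (Fin.natAdd n (Fin.castAdd m i)) l else 0)
      = if i = l then (if Fin.natAdd n (Fin.castAdd m l) ∈ q then (1 : ℝ) else 0) else 0 := by
    intro i
    by_cases hil : i = l
    · subst hil
      simp [te3_h, Fin.append_left, Fin.append_right]
    · simp [te3_h, Fin.append_left, Fin.append_right, hil, Pi.single_apply, Ne.symm hil,
        fun h => hil (Eq.symm h)]
  have h4 : ∀ i : Fin m, (if Fin.natAdd n (Fin.natAdd m i) ∈ q then
      te3_h m n (Fin.natAdd n (Fin.natAdd m i)) l else 0)
      = if i = l then (if Fin.natAdd n (Fin.natAdd m l) ∈ q then (-1 : ℝ) else 0) else 0 := by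
    intro i
    have h5 : te3_h m n (Fin.natAdd n (Fin.natAdd m i)) l = if l = i then (-1 : ℝ) else 0 := by
      simp only [te3_h, Fin.append_right, Pi.neg_apply, Pi.single_apply]
      split_ifs <;> norm_num
    rw [h5]
    by_cases hil : i = l
    · subst hil
      simp only [if_true]
    · rw [if_neg (Ne.symm hil), if_neg hil]
      simp only [ite_self]
  simp only [h2, h3, h4, Finset.sum_const_zero, Finset.sum_ite_eq', Finset.mem_univ, if_true]
  split_ifs <;> norm_num

theorem te3_tri {m : ℕ} (a b c : Fin m → ℝ) (h : ∀ l, a l = c l - b l) :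
    Real.sqrt (∑ l, (a l) ^ 2) ≤ Real.sqrt (∑ l, (c l) ^ 2) + Real.sqrt (∑ l, (b l) ^ 2) := by
  have ha : ∀ x : Fin m → ℝ, Real.sqrt (∑ l, (x l) ^ 2) = ‖(WithLp.toLp 2 x : EuclideanSpace ℝ (Fin m))‖ := by
    intro x
    rw [EuclideanSpace.norm_eq]
    simp [sq_abs]
  rw [ha a, ha b, ha c]
  have : (WithLp.toLp 2 a : EuclideanSpace ℝ (Fin m)) = WithLp.toLp 2 c - WithLp.toLp 2 b := by
    ext l
    simp [h l]
  rw [this]
  exact norm_sub_le _ _

theorem tE3 (h1 : S_span) : S_gen := by
  classical
  intro m n hm v hv hs
  obtain ⟨s', hnd, hall, hb⟩ := h1 m (n + (m + m)) hm (te3_v v) (by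
      intro i
      refine Fin.addCases (fun i => ?_) (fun i => ?_) i
      · simp only [te3_v, Fin.append_left]
        exact hv i
      · refine Fin.addCases (fun i => ?_) (fun i => ?_) i
        · simp only [te3_v, Fin.append_left, Fin.append_right, Pi.single_apply]
          simp
        · simp only [te3_v, Fin.append_right, Pi.neg_apply, Pi.single_apply]
          simp) (by
      intro l
      rw [Fin.sum_univ_add, Fin.sum_univ_add]
      simp only [te3_v, Fin.append_left, Fin.append_right, Pi.neg_apply, Pi.single_apply]
      rw [hs l]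
      simp) (by
      intro w hw
      funext j
      have := hw (Fin.natAdd n (Fin.castAdd m j))
      simp only [te3_v, Fin.append_left, Fin.append_right, Pi.single_apply] at this
      simpa using this)
  refine ⟨s'.filterMap te3_f, ?_, ?_, ?_⟩
  · refine List.Nodup.filterMap ?_ hnd
    intro a a' b hab hab'
    unfold te3_f at hab hab'
    simp only [Option.mem_def] at hab hab'
    split_ifs at hab hab' with h h' <;> simp_all
    apply Fin.ext
    have h2 := congrArg Fin.val hab
    have h3 := congrArg Fin.val hab'
    simp at h2 h3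
    omega
  · intro i
    rw [List.mem_filterMap]
    exact ⟨Fin.castAdd (m + m) i, hall _, by unfold te3_f; simp⟩
  · intro r
    obtain ⟨r', hr'⟩ := te3_take te3_f s' r
    rw [hr']
    have hq : (s'.take r').Nodup := hnd.sublist (List.take_sublist _ _)
    refine (te3_tri _ (fun l => ((s'.take r').map (fun i => te3_h m n i l)).sum)
      (fun l => ((s'.take r').map (fun i => te3_v v i l)).sum) ?_).trans ?_
    · intro l
      have := te3_sum v l (s'.take r')
      linarith
    · refine add_le_add (Real.sqrt_le_sqrt (hb r')) (Real.sqrt_le_sqrt ?_)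
      calc ∑ l : Fin m, ((s'.take r').map (fun i => te3_h m n i l)).sum ^ 2
          ≤ ∑ l : Fin m, (1 : ℝ) := by
            refine Finset.sum_le_sum (fun l _ => ?_)
            have := te3_rest (n := n) l (s'.take r') hq
            rw [← sq_abs]
            nlinarith [abs_nonneg ((s'.take r').map (fun i => te3_h m n i l)).sum]
        _ = m := by simp

end Pool.Agent.H380R3.SZ
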