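import Pool.Agent.H380R3.SZ.Defs

/-! Task E4 (helper828): the theorem. -/

set_option autoImplicit false

namespace Pool.Agent.H380R3.SZ

open Finset

theorem tE4 (h1 : S_gen) (h2 : S_num) : S_main := by
  intro m n hm v hv hs
  obtain ⟨s, hnd, hall, hb⟩ := h1 m n hm (fun i l => v i l)
    (by
      intro i
      have h := hv i
      rw [EuclideanSpace.norm_eq] at h
      have h3 := (Real.sqrt_le_left (zero_le_one)).mp h
      rw [one_pow] at h3
      simpa [Real.norm_eq_abs, sq_abs] using h3)
    (by
      intro l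
      have h := congrArg (fun x : EuclideanSpace ℝ (Fin m) => x l) hs
      simpa using h)
  have hlen : s.length = n := by
    have h3 := List.toFinset_card_of_nodup hnd
    have h4 : s.toFinset = univ := by
      ext i; simp [hall i]
    rw [h4, card_univ, Fintype.card_fin] at h3
    exact h3.symm
  set π : Fin n ≃ Fin n := (finCongr hlen.symm).trans (hnd.getEquivOfForallMemList s hall) with hπ
  refine ⟨π, fun k => ?_⟩
  have hmap : ∀ l : Fin m, s.map (fun i => v i l) = List.ofFn (fun i : Fin n => v (π i) l) := by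
    intro l
    apply List.ext_getElem
    · simp [hlen]
    · intro i h3 h4
      simp [hπ]
  have hsum : ∀ l : Fin m, (∑ i ∈ univ.filter (fun i : Fin n => i.val < k), v (π i)) l =
      ((s.take k).map (fun i => v i l)).sum := by
    intro l
    rw [List.map_take, hmap l, List.sum_take_ofFn]
    simp
  have hnorm : ‖∑ i ∈ univ.filter (fun i : Fin n => i.val < k), v (π i)‖ =
      Real.sqrt (∑ l, (((s.take k).map (fun i => v i l)).sum) ^ 2) := by
    rw [EuclideanSpace.norm_eq]
    congr 1
    apply Finset.sum_congr rfl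
    intro l _
    rw [hsum l, Real.norm_eq_abs, sq_abs]
  rw [hnorm]
  refine (hb k).trans ?_
  obtain ⟨-, -, -, -, -, -, -, -, -, -, -, hLL⟩ := h2 m hm
  have hm1 : (1 : ℝ) ≤ m := by exact_mod_cast hm
  have hlog : 0 ≤ Real.log m := Real.log_nonneg hm1
  set Y : ℝ := (m : ℝ) * (1 + Real.log m) with hY
  have hY0 : 0 ≤ Y := by positivity
  have hLm : (LL m : ℝ) * m ≤ 46 * Y := by
    have h3 : (LL m : ℝ) ≤ 46 * (1 + Real.log m) := by linarith
    have h4 := mul_le_mul_of_nonneg_right h3 (by linarith : (0 : ℝ) ≤ m)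
    rw [hY]; linarith
  have e1 : Real.sqrt (4104 * LL m * m) ≤ 435 * Real.sqrt Y := by
    rw [Real.sqrt_le_iff]
    refine ⟨by positivity, ?_⟩
    rw [mul_pow, Real.sq_sqrt hY0]
    linarith
  have e2 : Real.sqrt m ≤ Real.sqrt Y := by
    apply Real.sqrt_le_sqrt
    rw [hY]
    nlinarith
  have e3 : 0 ≤ Real.sqrt Y := Real.sqrt_nonneg _
  linarith

end Pool.Agent.H380R3.SZ
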