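import Pool.Agent.H380R3.SZ.TA1
import Pool.Agent.H380R3.SZ.TA2
import Pool.Agent.H380R3.SZ.TA3
import Pool.Agent.H380R3.SZ.TA4
import Pool.Agent.H380R3.SZ.TA5
import Pool.Agent.H380R3.SZ.TA6
import Pool.Agent.H380R3.SZ.TA7
import Pool.Agent.H380R3.SZ.TB1
import Pool.Agent.H380R3.SZ.TB2
import Pool.Agent.H380R3.SZ.TB3
import Pool.Agent.H380R3.SZ.TC1
import Pool.Agent.H380R3.SZ.TC2
import Pool.Agent.H380R3.SZ.TC3
import Pool.Agent.H380R3.SZ.TC4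
import Pool.Agent.H380R3.SZ.TC5
import Pool.Agent.H380R3.SZ.TD1
import Pool.Agent.H380R3.SZ.TD2
import Pool.Agent.H380R3.SZ.TD3
import Pool.Agent.H380R3.SZ.TD4
import Pool.Agent.H380R3.SZ.TD5
import Pool.Agent.H380R3.SZ.TD6
import Pool.Agent.H380R3.SZ.TD7
import Pool.Agent.H380R3.SZ.TD8
import Pool.Agent.H380R3.SZ.TD9
import Pool.Agent.H380R3.SZ.TD10
import Pool.Agent.H380R3.SZ.TD11
import Pool.Agent.H380R3.SZ.TE1
import Pool.Agent.H380R3.SZ.TE2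
import Pool.Agent.H380R3.SZ.TE3
import Pool.Agent.H380R3.SZ.TE4

set_option autoImplicit false

namespace Pool.Agent.H380R3.SZ

theorem main : S_main := by
  have a2 := tA2 tA1
  have a6 := tA6 (tA5 (tA4 tA1 tA3))
  have a7 := tA7 a2 a6
  have b3 := tB3 tB1 tB2
  have c3 := tC3 tC1 tC4
  have d1 := tD1 tC1 c3 tC4 tC5
  have d2 := tD2 d1 a7 c3
  have d9 := tD9 d2 (tD3 c3 tC4) (tD4 c3 tC4) (tD5 tC1 c3 tC4) (tD6 tC1) (tD7 tC1 c3 tC4)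
    (tD8 c3 tC4)
  have e1 := tE1 d9 (tD10 tC1 tC4) (tD11 (tC2 tC1))
  exact tE4 (tE3 (tE2 b3 e1)) tC4

end Pool.Agent.H380R3.SZ
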