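import Pool.Agent.H380R3.SZ.Defs

/-!
# Moving along `z` until one more coordinate becomes integral
-/

set_option autoImplicit false

namespace Pool.Agent.H380R3.SZ

open Finset

theorem A1_mem {ι : Type} {V : Finset ι} {x : ι → ℝ} {i : ι} :
    i ∈ frac V x ↔ i ∈ V ∧ 0 < x i ∧ x i < 1 := by
  unfold frac
  rw [mem_filter]

theorem tA1 : S_move := by
  classical
  intro ι V x z hx hz ⟨i₁, hi₁⟩
  -- the time at which the coordinate becomes integral
  set t : ι → ℝ := fun i => if 0 < z i then (1 - x i) / z i else x i / (-z i) with ht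
  have hmemT : ∀ i, z i ≠ 0 → i ∈ frac V x := by
    intro i hi
    by_contra hcon
    exact hi (hz i hcon)
  obtain ⟨i₀, hi₀, hmin⟩ := exists_min_image ((frac V x).filter (fun i => z i ≠ 0)) t
    ⟨i₁, mem_filter.mpr ⟨hmemT i₁ hi₁, hi₁⟩⟩
  rw [mem_filter] at hi₀
  obtain ⟨hi₀F, hi₀z⟩ := hi₀
  have htpos : ∀ i, i ∈ frac V x → z i ≠ 0 → 0 < t i := by
    intro i hi hzi
    rw [A1_mem] at hi
    rw [ht]
    dsimp only
    split_ifs with h
    · exact div_pos (by linarith [hi.2.2]) h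
    · have : z i < 0 := lt_of_le_of_ne (not_lt.mp h) hzi
      exact div_pos hi.2.1 (by linarith)
  have hc : 0 < t i₀ := htpos i₀ hi₀F hi₀z
  have hle : ∀ i, z i ≠ 0 → t i₀ ≤ t i := fun i hi => hmin i (mem_filter.mpr ⟨hmemT i hi, hi⟩)
  have hpos : ∀ i, 0 < z i → t i * z i = 1 - x i := by
    intro i hi
    rw [ht]
    dsimp only
    rw [if_pos hi, div_mul_cancel₀ _ hi.ne']
  have hneg : ∀ i, z i < 0 → t i * z i = - x i := by
    intro i hi
    rw [ht]
    dsimp only
    rw [if_neg (not_lt.mpr hi.le)]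
    have : z i ≠ 0 := hi.ne
    field_simp
  have hIn : In01 V (fun i => x i + t i₀ * z i) := by
    intro i hi
    obtain ⟨h0, h1⟩ := hx i hi
    show 0 ≤ x i + t i₀ * z i ∧ x i + t i₀ * z i ≤ 1
    rcases lt_trichotomy (z i) 0 with h | h | h
    · have h2 := mul_le_mul_of_nonpos_right (hle i h.ne) h.le
      rw [hneg i h] at h2
      have h3 : t i₀ * z i ≤ 0 := mul_nonpos_of_nonneg_of_nonpos hc.le h.le
      constructor <;> linarith
    · rw [h, mul_zero, add_zero]
      exact ⟨h0, h1⟩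
    · have h2 := mul_le_mul_of_nonneg_right (hle i h.ne') h.le
      rw [hpos i h] at h2
      have h3 : 0 ≤ t i₀ * z i := mul_nonneg hc.le h.le
      constructor <;> linarith
  refine ⟨t i₀, hc, hIn, ?_⟩
  apply card_lt_card
  rw [ssubset_iff_of_subset]
  · refine ⟨i₀, hi₀F, ?_⟩
    rw [A1_mem]
    rintro ⟨-, h1, h2⟩
    rcases lt_or_gt_of_ne hi₀z with h | h
    · rw [hneg i₀ h] at h1
      linarith
    · rw [hpos i₀ h] at h2
      linarith
  · intro i hi
    rw [A1_mem] at hi
    by_cases hzi : z i = 0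
    · rw [A1_mem]
      rw [hzi, mul_zero, add_zero] at hi
      exact hi
    · exact hmemT i hzi

end Pool.Agent.H380R3.SZ
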