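import Pool.Agent.H380R3.SZ.Defs

/-! Task C4 (helper862): numerical facts. -/

set_option autoImplicit false

namespace Pool.Agent.H380R3.SZ

theorem tC4 : S_num := by
  intro m hm
  have hx : (1 : ℝ) ≤ (m : ℝ) := by exact_mod_cast hm
  set x : ℝ := (m : ℝ) with hxdef
  have hx0 : 0 < x := by linarith
  have hx2 : x ≤ x ^ 2 := by nlinarith
  have hx3 : x ^ 2 ≤ x ^ 3 := by nlinarith [sq_nonneg x]
  have hx4 : x ^ 2 ≤ x ^ 4 := by nlinarith [sq_nonneg x, sq_nonneg (x ^ 2 - 1)]
  have hx6 : x ^ 2 ≤ x ^ 6 := by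
    have h1 : x ^ 6 = x ^ 2 * x ^ 4 := by ring
    have h2 : 1 ≤ x ^ 4 := one_le_pow₀ hx
    rw [h1]
    nlinarith [sq_nonneg x]
  have hN1 : N1 m ≤ 3 * x ^ 2 := by unfold N1; linarith
  have hN1' : 1 ≤ N1 m := by
    unfold N1
    rw [← hxdef]
    nlinarith
  have hs : Real.sqrt x ^ 2 = x := Real.sq_sqrt hx0.le
  have hs0 : 0 < Real.sqrt x := Real.sqrt_pos.2 hx0
  have hs1 : Real.sqrt x ≤ x := by
    have h1 : 1 ≤ Real.sqrt x := by
      rw [← Real.sqrt_one]
      exact Real.sqrt_le_sqrt hx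
    nlinarith
  have hL0 : 0 < Lam m := by unfold Lam; positivity
  have hD0 : 0 < DD m := by
    unfold DD
    rw [← hxdef]
    have := mul_pos hx0 hL0
    linarith
  have hD1 : DD m ≤ 2 ^ 17 * x ^ 6 := by
    unfold DD Lam
    rw [← hxdef]
    nlinarith
  refine ⟨hN1, hN1', ?_, ?_, ?_, hL0, hD0, ?_, ?_, ?_, ?_, ?_⟩
  · unfold b0
    rw [← hxdef]
    linarith
  · unfold b0
    rw [← hxdef]
    linarith
  · unfold b0
    rw [← hxdef, mul_pow, hs]
    norm_num
  · have h1 : DD m ^ 2 ≤ (2 ^ 17 * x ^ 6) ^ 2 := pow_le_pow_left₀ hD0.le hD1 2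
    have h2 : x ≤ 2 ^ Nat.clog 2 m := by
      have := Nat.le_pow_clog (by norm_num : 1 < 2) m
      rw [hxdef]
      exact_mod_cast this
    have h3 : x ^ 12 ≤ (2 ^ Nat.clog 2 m) ^ 12 := pow_le_pow_left₀ hx0.le h2 12
    calc DD m ^ 2 ≤ (2 ^ 17 * x ^ 6) ^ 2 := h1
      _ = 2 ^ 34 * x ^ 12 := by ring
      _ ≤ 2 ^ 34 * (2 ^ Nat.clog 2 m) ^ 12 := by
          apply mul_le_mul_of_nonneg_left h3 (by norm_num)
      _ = 2 ^ LL m := by
          unfold LL
          rw [pow_add, ← pow_mul]
          congr 2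
          ring
  · unfold Lam Ds
    rw [← hxdef]
    have h1 : 4 * x * (1 / (512 * x ^ 3)) * (2 ^ 15 * x ^ 5) = 256 * x ^ 3 := by
      field_simp
      norm_num
    rw [h1]
    linarith
  · unfold Ds
    rw [← hxdef, one_div, inv_mul_le_iff₀ (by positivity)]
    have : 0 < x ^ 3 := by positivity
    linarith
  · intro w hw
    have hw' : 2 ^ 15 * x ^ 5 ≤ w := hw
    have h1 : 4 * x * (1 / (512 * x ^ 3)) * w = w / (128 * x ^ 2) := by
      field_simp
      ring
    rw [h1]
    have hx5 : 0 < x ^ 5 := by positivity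
    have hw0 : 0 < w := by linarith [mul_pos (by norm_num : (0 : ℝ) < 2 ^ 15) hx5]
    have h2 : w / (128 * x ^ 2) ≤ w / (128 * x) := by
      apply div_le_div_of_nonneg_left hw0.le (by positivity)
      linarith
    have h3 : w / (2 * x) = w / (128 * x) + 63 * (w / (128 * x)) := by
      field_simp
      norm_num
    have h4 : 256 * x ^ 4 ≤ w / (128 * x) := by
      rw [le_div_iff₀ (by positivity)]
      have : 256 * x ^ 4 * (128 * x) = 2 ^ 15 * x ^ 5 := by ring
      linarith
    have : 0 < x ^ 4 := by positivity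
    linarith
  · have hlog0 : 0 ≤ Real.log x := Real.log_nonneg hx
    have hkey : (Nat.clog 2 m : ℝ) ≤ 1 + 3 / 2 * Real.log x := by
      rcases Nat.eq_zero_or_pos (Nat.clog 2 m) with h0 | h0
      · rw [h0]
        push_cast
        linarith
      · have hm2 : 1 < m := by
          by_contra h
          have : m = 1 := by omega
          rw [this, Nat.clog_one_right] at h0
          omega
        have h1 : 2 ^ (Nat.clog 2 m - 1) < m := Nat.pow_pred_clog_lt_self (by norm_num) hm2
        have h2 : (2 : ℝ) ^ (Nat.clog 2 m - 1) < x := by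
          rw [hxdef]
          exact_mod_cast h1
        have h3 : ((Nat.clog 2 m - 1 : ℕ) : ℝ) * Real.log 2 < Real.log x := by
          rw [← Real.log_pow]
          exact Real.log_lt_log (by positivity) h2
        rw [Nat.cast_sub h0] at h3
        push_cast at h3
        have h4 := Real.log_two_gt_d9
        have h5 : 0 ≤ (Nat.clog 2 m : ℝ) - 1 := by
          have : (1 : ℝ) ≤ (Nat.clog 2 m : ℝ) := by exact_mod_cast h0
          linarith
        nlinarith
    unfold LL
    push_cast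
    linarith

end Pool.Agent.H380R3.SZ
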