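import Pool.Agent.H380R3.SZ.Defs

set_option autoImplicit false

namespace Pool.Agent.H380R3.SZ

open Finset

private theorem sum_map_lin {m n : ℕ} (v : Fin n → Fin m → ℝ) (w : Fin m → ℝ)
    (L : List (Fin n)) :
    (L.map (fun i => ∑ l, v i l * w l)).sum = ∑ l, (L.map (fun i => v i l)).sum * w l := by
  induction L with
  | nil => simp
  | cons a L ih =>
    simp only [List.map_cons, List.sum_cons, ih, add_mul, Finset.sum_add_distrib]

private theorem parseval {m : ℕ} (u : Fin m → Fin m → ℝ)
    (hu : ∀ l l', ∑ j, u j l * u j l' = if l = l' then 1 else 0) (W : Fin m → ℝ) :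
    ∑ j, (∑ l, W l * u j l) ^ 2 = ∑ l, (W l) ^ 2 := by
  calc ∑ j, (∑ l, W l * u j l) ^ 2
      = ∑ j, ∑ l, ∑ l', (W l * W l') * (u j l * u j l') := by
        refine Finset.sum_congr rfl fun j _ => ?_
        rw [sq, Finset.sum_mul_sum]
        refine Finset.sum_congr rfl fun l _ => Finset.sum_congr rfl fun l' _ => ?_
        ring
    _ = ∑ l, ∑ l', (W l * W l') * ∑ j, (u j l * u j l') := by
        rw [Finset.sum_comm]
        refine Finset.sum_congr rfl fun l _ => ?_
        rw [Finset.sum_comm]
        refine Finset.sum_congr rfl fun l' _ => ?_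
        rw [Finset.mul_sum]
    _ = ∑ l, (W l) ^ 2 := by
        refine Finset.sum_congr rfl fun l _ => ?_
        simp only [hu, mul_ite, mul_one, mul_zero, Finset.sum_ite_eq, Finset.mem_univ, if_true]
        ring

theorem tE2 (h1 : S_normal) (h2 : S_tree) : S_span := by
  intro m n hm v hv hs hsp
  obtain ⟨S, u, hu1, hu2, hSv⟩ := h1 m n hm v hv hs hsp
  obtain ⟨s, hs1, hs2, hs3⟩ := h2 m n S hm
  refine ⟨s, hs1, hs2, fun r => ?_⟩
  have h := hs3 r
  have e : ∀ j, ((s.take r).map (fun i => S.v i j)).sum =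
      ∑ l, ((s.take r).map (fun i => v i l)).sum * u j l := by
    intro j
    rw [← sum_map_lin v (u j)]
    simp only [hSv]
  simp only [e] at h
  rwa [parseval u hu2] at h

end Pool.Agent.H380R3.SZ
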